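import Pool.Agent.NHV.Defs
import Pool.Agent.NH.Sub

/-!
# The negation hierarchy with exponent `1 / (t + 1)`: module DDec (decomposition)
-/

set_option autoImplicit false

namespace Pool.Agent.NHV

open Finset Pool.Agent.NH

section Dec

variable {W : Type} [DecidableEq W]

set_option linter.unusedSectionVars false

private lemma DD_mono {f : (W → Bool) → Bool} {S S' : Finset W} (h : DepOn f S) (hS : S ⊆ S') :
    DepOn f S' := fun x y hxy => h x y fun v hv => hxy v (hS hv)

private lemma DD_and {f g : (W → Bool) → Bool} {S : Finset W} (h : DepOn f S) (h' : DepOn g S) :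
    DepOn (fun x => f x && g x) S := fun x y hxy => by
  show (f x && g x) = (f y && g y)
  rw [h x y hxy, h' x y hxy]

private lemma DD_or {f g : (W → Bool) → Bool} {S : Finset W} (h : DepOn f S) (h' : DepOn g S) :
    DepOn (fun x => f x || g x) S := fun x y hxy => by
  show (f x || g x) = (f y || g y)
  rw [h x y hxy, h' x y hxy]

private lemma DD_dep {w t s : ℕ} {L : List (Gt W)} (h : DProg w t s L) :
    ∀ g ∈ L, DepOn g.f g.S := by
  induction h with
  | nil => intro g hg; exact absurd hg (by simp)
  | cons h1 h2 ih =>
    rename_i L g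
    intro g' hg'
    rcases List.mem_cons.1 hg' with rfl | hg'
    · rcases h2 with ⟨S, hS, -, h⟩ | ⟨p, hp, h3, h4⟩ | ⟨p, hp, q, hq, h3, h4, h5, h8⟩ |
        ⟨p, hp, q, hq, h3, h4, h5, h8⟩ | ⟨f, h3, h5⟩
      · exact DD_mono h hS
      · rw [h4]
        exact DD_mono (ih p hp) h3
      · rw [h8]
        exact DD_and (DD_mono (ih p hp) h4) (DD_mono (ih q hq) h5)
      · rw [h8]
        exact DD_or (DD_mono (ih p hp) h4) (DD_mono (ih q hq) h5)
      · rw [h5]
        intro x y hxy
        show (!f x) = !f y
        rw [(thm_Sub W w t s f g'.S h3).1 x y hxy]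
    · exact ih g' hg'

/-- heavy gates -/
private def Hv (B : Finset W) (g : Gt W) : Prop := 16 * (B \ g.S).card < B.card

/-- the gate with another function -/
private def md (m : Gt W → (W → Bool) → Bool) (g : Gt W) : Gt W := ⟨m g, g.S, g.l⟩

open Classical in
/-- the sum over the frontier -/
private noncomputable def dS (N φ : Gt W → (W → Bool) → Bool) (M : List (Gt W)) (x : W → Bool) :
    ℕ :=
  ∑ v ∈ M.toFinset, (N v x).toNat * (φ v x).toNat

/-- the sum of the selected terms -/
private def tS (F : Finset (Gt W × Bool)) (T : Gt W × Bool → (W → Bool) → Bool)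
    (sel : Gt W × Bool → Bool) (x : W → Bool) : ℕ :=
  ∑ q ∈ F, if sel q = true then (T q x).toNat else 0

/-- the contexts -/
private def Val (S B : Finset W) (M : List (Gt W)) (N : Gt W → (W → Bool) → Bool) : Prop :=
  ∀ v ∈ M, (∀ x, N v x = false) ∨ (Hv B v ∧ v.S ⊆ S ∧ DepOn (N v) (S \ v.S))

private lemma DD_push {S B : Finset W} {M : List (Gt W)} {N : Gt W → (W → Bool) → Bool}
    (hN : Val S B M N) {p : Gt W} (hp : p ∈ M) (hpB : Hv B p) (hpS : p.S ⊆ S)
    {n : (W → Bool) → Bool} (hn : DepOn n (S \ p.S))
    (hdis : ∀ x, N p x = true → n x = true → p.f x = true → False) :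
    ∃ N' : Gt W → (W → Bool) → Bool, Val S B M N' ∧
      (∀ v x, N' v x = true → N v x = true ∨ (v = p ∧ n x = true)) ∧
      ∀ φ : Gt W → (W → Bool) → Bool, (∀ x, φ p x = true → p.f x = true) → ∀ x,
        dS N' φ M x = dS N φ M x + (n x).toNat * (φ p x).toNat := by
  classical
  refine ⟨Function.update N p fun x => N p x || n x, ?_, ?_, ?_⟩
  · intro v hv
    by_cases hvp : v = p
    · subst hvp
      right
      rw [Function.update_self]
      refine ⟨hpB, hpS, DD_or ?_ hn⟩
      rcases hN v hv with h | h
      · intro x y _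
        rw [h x, h y]
      · exact h.2.2
    · rw [Function.update_of_ne hvp]
      exact hN v hv
  · intro v x h
    by_cases hvp : v = p
    · subst hvp
      rw [Function.update_self] at h
      rcases Bool.or_eq_true_iff.1 h with h | h
      · exact Or.inl h
      · exact Or.inr ⟨rfl, h⟩
    · rw [Function.update_of_ne hvp] at h
      exact Or.inl h
  · intro φ hφ x
    unfold dS
    have hpM : p ∈ M.toFinset := List.mem_toFinset.2 hp
    rw [← Finset.add_sum_erase _ _ hpM, ← Finset.add_sum_erase _ _ hpM]
    have h1 : ∑ v ∈ M.toFinset.erase p,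
        ((Function.update N p fun x => N p x || n x) v x).toNat * (φ v x).toNat =
        ∑ v ∈ M.toFinset.erase p, (N v x).toNat * (φ v x).toNat :=
      Finset.sum_congr rfl fun v hv => by rw [Function.update_of_ne (Finset.ne_of_mem_erase hv)]
    rw [h1, Function.update_self]
    have h2 := hdis x
    have h3 := hφ x
    revert h2 h3
    cases N p x <;> cases n x <;> cases φ p x <;> cases p.f x <;> simp <;> omega

/-- the function of an input `p` of a heavy gate `g` after the modification -/
private def Lc (B : Finset W) (m : (Gt W × Bool → Bool) → Gt W → (W → Bool) → Bool) (g : Gt W)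
    (b : Bool) (p : Gt W) (sel : Gt W × Bool → Bool) (F : (W → Bool) → Bool) : Prop :=
  (Hv B p ∧ F = m sel p) ∨ (¬ Hv B p ∧ sel (g, b) = true ∧ F = p.f) ∨
    (¬ Hv B p ∧ sel (g, b) = false ∧ F = fun _ => false)

private lemma DD_card {A B C : Finset W} {n : ℕ} (h : A ⊆ B ∪ C) (hn : B.card + C.card ≤ n) :
    A.card ≤ n := ((card_le_card h).trans (card_union_le _ _)).trans hn

private lemma DD_exit {w t s : ℕ} {S B : Finset W} {g p : Gt W} {n : (W → Bool) → Bool}
    (hpg : p.S ⊆ g.S) (hgS : g.S ⊆ S) (hgB : Hv B g) (hn : DepOn n (S \ g.S))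
    (hpd : DepOn p.f p.S) (hpB : ¬ Hv B p) : TermTy w t s B S (fun x => p.f x && n x) := by
  unfold Hv at hgB hpB
  have hpS : p.S ⊆ S := hpg.trans hgS
  have hn' : DepOn n (S \ p.S) := DD_mono hn (sdiff_subset_sdiff (subset_refl _) hpg)
  by_cases hpB' : B.card ≤ 16 * (B ∩ p.S).card
  · exact Or.inl ⟨p.S, hpS, hpB', by omega, p.f, n, hpd, hn', rfl⟩
  · refine Or.inr (Or.inr ⟨p.S ∪ (S \ g.S), union_subset hpS sdiff_subset, ?_,
      DD_and (DD_mono hpd subset_union_left) (DD_mono hn subset_union_right)⟩)
    have h1 : (B ∩ (p.S ∪ (S \ g.S))).card ≤ (B ∩ p.S).card + (B \ g.S).card := by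
      refine DD_card (C := B \ g.S) ?_ le_rfl
      intro v hv
      simp only [mem_inter, mem_union, mem_sdiff] at hv ⊢
      tauto
    omega

/-- an input of a heavy OR gate -/
private lemma DD_child {w t s : ℕ} {S B : Finset W} {M : List (Gt W)}
    {m : (Gt W × Bool → Bool) → Gt W → (W → Bool) → Bool}
    (hm : ∀ sel, ∀ g ∈ M, ∀ x, m sel g x = true → g.f x = true) {g p : Gt W} (hp : p ∈ M)
    (hpg : p.S ⊆ g.S) (hgS : g.S ⊆ S) (hgB : Hv B g) (hpd : DepOn p.f p.S)
    {n : (W → Bool) → Bool} (hn : DepOn n (S \ g.S)) (b : Bool) {N : Gt W → (W → Bool) → Bool}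
    (hN : Val S B M N) (hdis : ∀ x, N p x = true → n x = true → p.f x = true → False) :
    ∃ (N' : Gt W → (W → Bool) → Bool) (F : Finset (Gt W × Bool))
      (T : Gt W × Bool → (W → Bool) → Bool), Val S B M N' ∧
      (∀ v x, N' v x = true → N v x = true ∨ (v = p ∧ n x = true)) ∧
      F ⊆ {(g, b)} ∧ (∀ q ∈ F, TermTy w t s B S (T q)) ∧
      ∀ sel φ, Lc B m g b p sel φ → ∀ x,
        dS N (m sel) M x + (n x).toNat * (φ x).toNat = dS N' (m sel) M x + tS F T sel x := by
  classical
  by_cases hpB : Hv B p
  · obtain ⟨N', h1, h2, h3⟩ := DD_push hN hp hpB (hpg.trans hgS)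
      (DD_mono hn (sdiff_subset_sdiff (subset_refl _) hpg)) hdis
    refine ⟨N', ∅, fun _ _ => false, h1, h2, by simp, by simp, ?_⟩
    intro sel φ hφ x
    rcases hφ with ⟨_, rfl⟩ | ⟨h, _⟩ | ⟨h, _⟩
    · rw [h3 (m sel) (hm sel p hp) x]
      simp [tS]
    · exact absurd hpB h
    · exact absurd hpB h
  · refine ⟨N, {(g, b)}, fun _ x => p.f x && n x, hN, fun v x h => Or.inl h, subset_refl _,
      fun q _ => DD_exit hpg hgS hgB hn hpd hpB, ?_⟩
    intro sel φ hφ x
    unfold tS
    rw [Finset.sum_singleton]
    rcases hφ with ⟨h, _⟩ | ⟨_, h, rfl⟩ | ⟨_, h, rfl⟩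
    · exact absurd h hpB
    · rw [if_pos h]
      congr 1
      show _ = (p.f x && n x).toNat
      cases p.f x <;> cases n x <;> rfl
    · rw [h]
      simp

/-- the main statement -/
private def Main (w t s : ℕ) (S B : Finset W) (M : List (Gt W)) : Prop :=
  ∃ m : (Gt W × Bool → Bool) → Gt W → (W → Bool) → Bool,
    (∀ sel, DProg w t s (M.map (md (m sel)))) ∧
    (∀ sel, ∀ g ∈ M, ¬ Hv B g → m sel g = g.f) ∧
    (∀ sel, ∀ g ∈ M, ∀ x, m sel g x = true → g.f x = true) ∧
    (∀ g ∈ M, m (fun _ => true) g = g.f) ∧
    ∀ N, Val S B M N → (∀ x, dS N (fun v => v.f) M x ≤ 1) →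
      ∃ (F : Finset (Gt W × Bool)) (T : Gt W × Bool → (W → Bool) → Bool),
        F.card ≤ 2 * M.length ∧ (∀ q ∈ F, q.1 ∈ M) ∧ (∀ q ∈ F, TermTy w t s B S (T q)) ∧
        ∀ sel x, dS N (m sel) M x = tS F T sel x

private lemma DD_leaf_false {w t s : ℕ} {L : List (Gt W)} (S : Finset W) (l : ℕ) :
    DOk w t s L ⟨fun _ => false, S, l⟩ :=
  Or.inl ⟨∅, by simp, by simp, fun _ _ _ => rfl⟩

private lemma DD_step {w t s : ℕ} {S B : Finset W} {M : List (Gt W)} {g : Gt W} (hg : g ∉ M)
    {m' : (Gt W × Bool → Bool) → Gt W → (W → Bool) → Bool}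
    (a1 : ∀ sel, DProg w t s (M.map (md (m' sel))))
    (a2 : ∀ sel, ∀ g ∈ M, ¬ Hv B g → m' sel g = g.f)
    (a3 : ∀ sel, ∀ g ∈ M, ∀ x, m' sel g x = true → g.f x = true)
    (a4 : ∀ g ∈ M, m' (fun _ => true) g = g.f)
    (a5 : ∀ N, Val S B M N → (∀ x, dS N (fun v => v.f) M x ≤ 1) →
      ∃ (F : Finset (Gt W × Bool)) (T : Gt W × Bool → (W → Bool) → Bool),
        F.card ≤ 2 * M.length ∧ (∀ q ∈ F, q.1 ∈ M) ∧ (∀ q ∈ F, TermTy w t s B S (T q)) ∧
        ∀ sel x, dS N (m' sel) M x = tS F T sel x)
    (G : (Gt W × Bool → Bool) → (W → Bool) → Bool)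
    (b1 : ∀ sel, DOk w t s (M.map (md (m' sel))) ⟨G sel, g.S, g.l⟩)
    (b2 : ¬ Hv B g → ∀ sel, G sel = g.f) (b3 : ∀ sel x, G sel x = true → g.f x = true)
    (b4 : G (fun _ => true) = g.f)
    (b5 : ∀ N, Val S B M N → (∀ v ∈ M, ∀ x, N v x = true → N g x = true → v.f x = true →
        g.f x = true → False) → Hv B g → g.S ⊆ S → DepOn (N g) (S \ g.S) →
      ∃ (N' : Gt W → (W → Bool) → Bool) (F : Finset (Gt W × Bool))
        (T : Gt W × Bool → (W → Bool) → Bool), Val S B M N' ∧ F.card ≤ 2 ∧ (∀ q ∈ F, q.1 = g) ∧
        (∀ q ∈ F, TermTy w t s B S (T q)) ∧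
        ∀ sel x, dS N (m' sel) M x + (N g x).toNat * (G sel x).toNat =
          dS N' (m' sel) M x + tS F T sel x) :
    Main w t s S B (g :: M) := by
  classical
  have hne : ∀ v ∈ M, v ≠ g := fun v hv h => hg (h ▸ hv)
  refine ⟨fun sel v => if v = g then G sel else m' sel v, ?_, ?_, ?_, ?_, ?_⟩
  · intro sel
    have e : (g :: M).map (md fun v => if v = g then G sel else m' sel v) =
        ⟨G sel, g.S, g.l⟩ :: M.map (md (m' sel)) := by
      rw [List.map_cons]
      congr 1
      · simp [md]
      · refine List.map_congr_left fun v hv => ?_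
        simp [md, hne v hv]
    rw [e]
    exact DProg.cons (a1 sel) (b1 sel)
  · intro sel v hv hvB
    by_cases hvg : v = g
    · subst hvg
      simp only [if_true]
      exact b2 hvB sel
    · simp only [if_neg hvg]
      exact a2 sel v ((List.mem_cons.1 hv).resolve_left hvg) hvB
  · intro sel v hv x
    by_cases hvg : v = g
    · subst hvg
      simp only [if_true]
      exact b3 sel x
    · simp only [if_neg hvg]
      exact a3 sel v ((List.mem_cons.1 hv).resolve_left hvg) x
  · intro v hv
    by_cases hvg : v = g
    · subst hvg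
      simp only [if_true]
      exact b4
    · simp only [if_neg hvg]
      exact a4 v ((List.mem_cons.1 hv).resolve_left hvg)
  · intro N hN hle
    have hcons : ∀ (φ : Gt W → (W → Bool) → Bool) x, dS N φ (g :: M) x =
        (N g x).toNat * (φ g x).toNat + dS N φ M x := by
      intro φ x
      unfold dS
      rw [List.toFinset_cons, Finset.sum_insert (by rwa [List.mem_toFinset])]
    have hm' : ∀ (N : Gt W → (W → Bool) → Bool) sel x,
        dS N (fun v => if v = g then G sel else m' sel v) M x = dS N (m' sel) M x := by
      intro N sel x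
      unfold dS
      refine Finset.sum_congr rfl fun v hv => ?_
      simp only [if_neg (hne v (List.mem_toFinset.1 hv))]
    have ht' : ∀ (N : Gt W → (W → Bool) → Bool) x,
        dS N (m' fun _ => true) M x = dS N (fun v => v.f) M x := by
      intro N x
      unfold dS
      refine Finset.sum_congr rfl fun v hv => ?_
      rw [a4 v (List.mem_toFinset.1 hv)]
    have hN' : Val S B M N := fun v hv => hN v (List.mem_cons_of_mem _ hv)
    rcases hN g List.mem_cons_self with h0 | ⟨hgB, hgS, hgd⟩
    · obtain ⟨F, T, c1, c2, c3, c4⟩ := a5 N hN' fun x => by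
        have h1 := hle x
        rw [hcons] at h1
        omega
      refine ⟨F, T, by rw [List.length_cons]; omega, fun q hq => List.mem_cons_of_mem _ (c2 q hq),
        c3, fun sel x => ?_⟩
      rw [hcons, hm', h0 x, c4 sel x]
      simp
    · have hdis : ∀ v ∈ M, ∀ x, N v x = true → N g x = true → v.f x = true → g.f x = true →
          False := by
        intro v hv x h1 h2 h3 h4
        have h5 := hle x
        rw [hcons] at h5
        have h6 : 1 ≤ dS N (fun v => v.f) M x := by
          unfold dS
          rw [← Finset.add_sum_erase _ _ (List.mem_toFinset.2 hv)]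
          simp only [h1, h3]
          simp
        rw [h2, h4] at h5
        simp only [Bool.toNat_true, mul_one] at h5
        omega
      obtain ⟨N', F₁, T₁, d1, d2, d3, d4, d5⟩ := b5 N hN' hdis hgB hgS hgd
      obtain ⟨F₂, T₂, c1, c2, c3, c4⟩ := a5 N' d1 fun x => by
        have h1 := hle x
        have h2 := d5 (fun _ => true) x
        rw [hcons] at h1
        rw [ht', ht', b4] at h2
        omega
      have hd : Disjoint F₁ F₂ := by
        rw [Finset.disjoint_left]
        intro q h1 h2
        exact hg (d3 q h1 ▸ c2 q h2)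
      refine ⟨F₁ ∪ F₂, fun q => if q.1 = g then T₁ q else T₂ q, ?_, ?_, ?_, ?_⟩
      · rw [Finset.card_union_of_disjoint hd, List.length_cons]
        omega
      · intro q hq
        rcases Finset.mem_union.1 hq with hq | hq
        · rw [d3 q hq]
          exact List.mem_cons_self
        · exact List.mem_cons_of_mem _ (c2 q hq)
      · intro q hq
        rcases Finset.mem_union.1 hq with hq | hq
        · simp only [if_pos (d3 q hq)]
          exact d4 q hq
        · have h1 : q.1 ≠ g := hne _ (c2 q hq)
          simp only [if_neg h1]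
          exact c3 q hq
      · intro sel x
        rw [hcons, hm']
        unfold tS
        rw [Finset.sum_union hd]
        have e1 : (∑ q ∈ F₁, if sel q = true then
            ((if q.1 = g then T₁ q else T₂ q) x).toNat else 0) = tS F₁ T₁ sel x := by
          unfold tS
          refine Finset.sum_congr rfl fun q hq => ?_
          rw [if_pos (d3 q hq)]
        have e2 : (∑ q ∈ F₂, if sel q = true then
            ((if q.1 = g then T₁ q else T₂ q) x).toNat else 0) = tS F₂ T₂ sel x := by
          unfold tS
          refine Finset.sum_congr rfl fun q hq => ?_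
          rw [if_neg (hne _ (c2 q hq))]
        rw [e1, e2, ← c4 sel x, add_comm (tS F₁ T₁ sel x), ← d5 sel x]
        simp only [if_true]
        exact add_comm _ _

private lemma DD_md_eq {m : Gt W → (W → Bool) → Bool} {g : Gt W} (h : m g = g.f) :
    md m g = g := by
  cases g
  simp only [md] at h ⊢
  rw [h]

private lemma DD_main {w t s : ℕ} {S B : Finset W} (hB : 0 < B.card) (hw : 8 * w ≤ B.card)
    {M : List (Gt W)} (hM : DProg w t s M) : Main w t s S B M := by
  classical
  induction hM with
  | nil =>
    refine ⟨fun _ g => g.f, fun _ => DProg.nil, fun _ _ _ _ => rfl, fun _ _ _ _ h => h,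
      fun _ _ => rfl, fun N _ _ => ⟨∅, fun _ _ => false, by simp, by simp, by simp, ?_⟩⟩
    intro sel x
    simp [dS, tS]
  | cons h1 h2 ih =>
    rename_i M g
    have hdep := DD_dep h1
    have hgd : DepOn g.f g.S := DD_dep (DProg.cons h1 h2) g List.mem_cons_self
    obtain ⟨m', a1, a2, a3, a4, a5⟩ := ih
    by_cases hg : g ∈ M
    · -- a repeated gate
      refine ⟨m', ?_, ?_, ?_, ?_, ?_⟩
      · intro sel
        rw [List.map_cons]
        refine DProg.cons (a1 sel) (Or.inr (Or.inl ⟨md (m' sel) g, List.mem_map_of_mem hg,
          subset_refl _, rfl⟩))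
      · intro sel v hv
        rcases List.mem_cons.1 hv with rfl | hv
        · exact a2 sel v hg
        · exact a2 sel v hv
      · intro sel v hv
        rcases List.mem_cons.1 hv with rfl | hv
        · exact a3 sel v hg
        · exact a3 sel v hv
      · intro v hv
        rcases List.mem_cons.1 hv with rfl | hv
        · exact a4 v hg
        · exact a4 v hv
      · intro N hN hle
        have e : ∀ (φ : Gt W → (W → Bool) → Bool) x, dS N φ (g :: M) x = dS N φ M x := by
          intro φ x
          unfold dS
          rw [List.toFinset_cons, Finset.insert_eq_self.2 (List.mem_toFinset.2 hg)]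
        obtain ⟨F, T, c1, c2, c3, c4⟩ := a5 N (fun v hv => hN v (List.mem_cons_of_mem _ hv))
          fun x => by
            rw [← e]
            exact hle x
        refine ⟨F, T, by rw [List.length_cons]; omega,
          fun q hq => List.mem_cons_of_mem _ (c2 q hq), c3, fun sel x => ?_⟩
        rw [e, c4 sel x]
    -- gates which are not heavy are not changed
    have hsame : ∀ sel, ∀ p ∈ M, ¬ Hv B p → p ∈ M.map (md (m' sel)) := by
      intro sel p hp hpB
      have h3 := List.mem_map_of_mem (f := md (m' sel)) hp
      rwa [DD_md_eq (a2 sel p hp hpB)] at h3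
    have hlight : ∀ p : Gt W, p.S ⊆ g.S → ¬ Hv B g → ¬ Hv B p := by
      intro p hp hgB hpB
      apply hgB
      unfold Hv at hpB ⊢
      have h3 := card_le_card (sdiff_subset_sdiff (subset_refl B) hp)
      omega
    by_cases hgB : Hv B g
    swap
    · -- a light gate
      refine DD_step hg a1 a2 a3 a4 a5 (fun _ => g.f) ?_ (fun _ _ => rfl) (fun _ _ h => h) rfl
        fun N hN hdis hgB' => absurd hgB' hgB
      intro sel
      rcases h2 with h | ⟨p, hp, h3, h4⟩ | ⟨p, hp, q, hq, h3, h4, h5, h8⟩ |
        ⟨p, hp, q, hq, h3, h4, h5, h8⟩ | h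
      · exact Or.inl h
      · exact Or.inr (Or.inl ⟨p, hsame sel p hp (hlight p h3 hgB), h3, h4⟩)
      · exact Or.inr (Or.inr (Or.inl ⟨p, hsame sel p hp (hlight p h4 hgB), q,
          hsame sel q hq (hlight q h5 hgB), h3, h4, h5, h8⟩))
      · exact Or.inr (Or.inr (Or.inr (Or.inl ⟨p, hsame sel p hp (hlight p h4 hgB), q,
          hsame sel q hq (hlight q h5 hgB), h3, h4, h5, h8⟩)))
      · exact Or.inr (Or.inr (Or.inr (Or.inr h)))
    -- exits
    have hexit : (∀ sel, DOk w t s (M.map (md (m' sel))) g) →
        (∀ n : (W → Bool) → Bool, g.S ⊆ S → DepOn n (S \ g.S) →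
          TermTy w t s B S fun x => n x && g.f x) → Main w t s S B (g :: M) := by
      intro e1 e2
      refine DD_step hg a1 a2 a3 a4 a5 (fun sel => if sel (g, true) = true then g.f else
        fun _ => false) ?_ (fun h => absurd hgB h) ?_ (if_pos rfl) ?_
      · intro sel
        by_cases h : sel (g, true) = true
        · rw [if_pos h]
          exact e1 sel
        · rw [if_neg h]
          exact DD_leaf_false _ _
      · intro sel x
        by_cases h : sel (g, true) = true
        · rw [if_pos h]
          exact fun h => h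
        · rw [if_neg h]
          intro h
          exact absurd h (by simp)
      · intro N hN hdis _ hgS hnd
        refine ⟨N, {(g, true)}, fun _ x => N g x && g.f x, hN, by simp, ?_, ?_, ?_⟩
        · intro q hq
          rw [Finset.mem_singleton] at hq
          rw [hq]
        · intro q _
          exact e2 (N g) hgS hnd
        · intro sel x
          unfold tS
          rw [Finset.sum_singleton]
          congr 1
          by_cases h : sel (g, true) = true
          · rw [if_pos h, if_pos h]
            show _ = (N g x && g.f x).toNat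
            cases N g x <;> cases g.f x <;> rfl
          · rw [if_neg h, if_neg h]
            simp
    rcases h2 with ⟨S₀, hS₀, hS₀w, hgf⟩ | ⟨p, hp, h3, h4⟩ | ⟨p, hp, q, hq, h3, h4, h5, h8⟩ |
      ⟨p, hp, q, hq, h3, h4, h5, h8⟩ | ⟨f, h3, h5⟩
    · -- a leaf
      refine hexit (fun sel => Or.inl ⟨S₀, hS₀, hS₀w, hgf⟩) fun n hgS hn => ?_
      refine Or.inr (Or.inr ⟨(S \ g.S) ∪ S₀, union_subset sdiff_subset (hS₀.trans hgS), ?_,
        DD_and (DD_mono hn subset_union_left) (DD_mono hgf subset_union_right)⟩)
      have h1 : (B ∩ ((S \ g.S) ∪ S₀)).card ≤ (B \ g.S).card + S₀.card := by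
        refine DD_card (B := B \ g.S) (C := S₀) ?_ le_rfl
        intro v hv
        simp only [mem_inter, mem_union, mem_sdiff] at hv ⊢
        tauto
      unfold Hv at hgB
      omega
    · -- a copy
      by_cases hpB : Hv B p
      · refine DD_step hg a1 a2 a3 a4 a5 (fun sel => m' sel p) ?_ (fun h => absurd hgB h) ?_ ?_ ?_
        · intro sel
          exact Or.inr (Or.inl ⟨md (m' sel) p, List.mem_map_of_mem hp, h3, rfl⟩)
        · intro sel x h
          rw [h4]
          exact a3 sel p hp x h
        · rw [h4]
          exact a4 p hp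
        · intro N hN hdis _ hgS hnd
          obtain ⟨N', F, T, c1, c2, c3, c4, c5⟩ := DD_child (w := w) (t := t) (s := s) a3 hp h3 hgS
            hgB (hdep p hp) hnd true hN fun x e1 e2 e3 => hdis p hp x e1 e2 e3 (by rw [h4]; exact e3)
          refine ⟨N', F, T, c1, ?_, ?_, c4, ?_⟩
          · exact (card_le_card c3).trans (by simp)
          · intro q hq
            have := c3 hq
            rw [Finset.mem_singleton] at this
            rw [this]
          · intro sel x
            exact c5 sel _ (Or.inl ⟨hpB, rfl⟩) x
      · refine hexit (fun sel => Or.inr (Or.inl ⟨p, hsame sel p hp hpB, h3, h4⟩))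
          fun n hgS hn => ?_
        have h6 := DD_exit (w := w) (t := t) (s := s) h3 hgS hgB hn (hdep p hp) hpB
        have e : (fun x => n x && g.f x) = fun x => p.f x && n x := by
          funext x
          rw [h4]
          exact Bool.and_comm _ _
        rw [e]
        exact h6
    · -- AND
      have hpd : DepOn p.f p.S := hdep p hp
      have hqd : DepOn q.f q.S := hdep q hq
      -- one input is heavy
      have hheavy : ∀ a ∈ M, ∀ b ∈ M, Hv B a → Disjoint a.S b.S → a.S ⊆ g.S → b.S ⊆ g.S →
          (g.f = fun x => a.f x && b.f x) → Main w t s S B (g :: M) := by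
        intro a ha b hb haB hab hag hbg hgf
        have hbB : ¬ Hv B b := by
          intro hbB
          unfold Hv at haB hbB
          have e1 : (B ∩ b.S).card ≤ (B \ a.S).card := by
            apply card_le_card
            intro v hv
            rw [mem_inter] at hv
            exact mem_sdiff.2 ⟨hv.1, fun h => disjoint_left.1 hab h hv.2⟩
          have e2 := card_sdiff_add_card_inter B b.S
          omega
        refine DD_step hg a1 a2 a3 a4 a5 (fun sel x => m' sel a x && b.f x) ?_
          (fun h => absurd hgB h) ?_ ?_ ?_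
        · intro sel
          exact Or.inr (Or.inr (Or.inl ⟨md (m' sel) a, List.mem_map_of_mem ha, b,
            hsame sel b hb hbB, hab, hag, hbg, rfl⟩))
        · intro sel x h
          rw [hgf]
          have h' := Bool.and_eq_true_iff.1 h
          show (a.f x && b.f x) = true
          rw [a3 sel a ha x h'.1, h'.2]
          rfl
        · rw [hgf, a4 a ha]
        · intro N hN hdis _ hgS hnd
          have hn' : DepOn (fun x => N g x && b.f x) (S \ a.S) := by
            refine DD_and (DD_mono hnd (sdiff_subset_sdiff (subset_refl _) hag))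
              (DD_mono (hdep b hb) ?_)
            intro v hv
            exact mem_sdiff.2 ⟨hgS (hbg hv), fun h => disjoint_left.1 hab h hv⟩
          obtain ⟨N', c1, c2, c3⟩ := DD_push hN ha haB (hag.trans hgS) hn' fun x e1 e2 e3 => by
            have e4 := Bool.and_eq_true_iff.1 e2
            refine hdis a ha x e1 e4.1 e3 ?_
            rw [hgf]
            show (a.f x && b.f x) = true
            rw [e3, e4.2]
            rfl
          refine ⟨N', ∅, fun _ _ => false, c1, by simp, by simp, by simp, fun sel x => ?_⟩
          rw [c3 (m' sel) (a3 sel a ha) x]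
          simp only [tS, Finset.sum_empty, add_zero]
          congr 1
          cases N g x <;> cases m' sel a x <;> cases b.f x <;> rfl
      by_cases hpB : Hv B p
      · exact hheavy p hp q hq hpB h3 h4 h5 h8
      by_cases hqB : Hv B q
      · exact hheavy q hq p hp hqB h3.symm h5 h4 (by
          rw [h8]
          funext x
          exact Bool.and_comm _ _)
      refine hexit (fun sel => Or.inr (Or.inr (Or.inl ⟨p, hsame sel p hp hpB, q,
        hsame sel q hq hqB, h3, h4, h5, h8⟩))) fun n hgS hn => ?_
      unfold Hv at hgB hpB hqB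
      have hpS : p.S ⊆ S := h4.trans hgS
      have hqS : q.S ⊆ S := h5.trans hgS
      have hnp : DepOn n (S \ p.S) := DD_mono hn (sdiff_subset_sdiff (subset_refl _) h4)
      have hnq : DepOn n (S \ q.S) := DD_mono hn (sdiff_subset_sdiff (subset_refl _) h5)
      have hqp : q.S ⊆ S \ p.S := fun v hv =>
        mem_sdiff.2 ⟨hqS hv, fun h' => disjoint_left.1 h3 h' hv⟩
      have hpq : p.S ⊆ S \ q.S := fun v hv =>
        mem_sdiff.2 ⟨hpS hv, fun h' => disjoint_left.1 h3 hv h'⟩
      by_cases hpB' : B.card ≤ 16 * (B ∩ p.S).card
      · refine Or.inl ⟨p.S, hpS, hpB', by omega, p.f, fun x => n x && q.f x, hpd,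
          DD_and hnp (DD_mono hqd hqp), ?_⟩
        funext x
        rw [h8]
        dsimp only
        cases n x <;> cases p.f x <;> cases q.f x <;> rfl
      by_cases hqB' : B.card ≤ 16 * (B ∩ q.S).card
      · refine Or.inl ⟨q.S, hqS, hqB', by omega, q.f, fun x => n x && p.f x, hqd,
          DD_and hnq (DD_mono hpd hpq), ?_⟩
        funext x
        rw [h8]
        dsimp only
        cases n x <;> cases p.f x <;> cases q.f x <;> rfl
      refine Or.inr (Or.inr ⟨p.S ∪ ((S \ g.S) ∪ q.S), union_subset hpS (union_subset
        sdiff_subset hqS), ?_, ?_⟩)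
      · have h1 : (B ∩ (p.S ∪ ((S \ g.S) ∪ q.S))).card ≤
            (B ∩ p.S).card + ((B \ g.S) ∪ (B ∩ q.S)).card := by
          refine DD_card ?_ le_rfl
          intro v hv
          simp only [mem_inter, mem_union, mem_sdiff] at hv ⊢
          tauto
        have h2 : ((B \ g.S) ∪ (B ∩ q.S)).card ≤ (B \ g.S).card + (B ∩ q.S).card :=
          card_union_le _ _
        omega
      · rw [h8]
        exact DD_and (DD_mono hn (subset_union_left.trans subset_union_right))
          (DD_and (DD_mono hpd subset_union_left)
            (DD_mono hqd (subset_union_right.trans subset_union_right)))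
    · -- OR
      have hlc : ∀ (b : Bool) (a : Gt W) sel, ∃ F, Lc B m' g b a sel F := by
        intro b a sel
        by_cases haB : Hv B a
        · exact ⟨_, Or.inl ⟨haB, rfl⟩⟩
        · cases hs : sel (g, b) with
          | true => exact ⟨_, Or.inr (Or.inl ⟨haB, hs, rfl⟩)⟩
          | false => exact ⟨_, Or.inr (Or.inr ⟨haB, hs, rfl⟩)⟩
      choose! Lf hLf using hlc
      have hle1 : ∀ (b : Bool) (a : Gt W), a ∈ M → ∀ sel x, Lf b a sel x = true → a.f x = true := by
        intro b a ha sel x hx
        rcases hLf b a sel with ⟨-, h⟩ | ⟨-, -, h⟩ | ⟨-, -, h⟩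
        · rw [h] at hx
          exact a3 sel a ha x hx
        · rw [h] at hx
          exact hx
        · rw [h] at hx
          exact absurd hx (by simp)
      have htr : ∀ (b : Bool) (a : Gt W), a ∈ M → Lf b a (fun _ => true) = a.f := by
        intro b a ha
        rcases hLf b a (fun _ => true) with ⟨-, h⟩ | ⟨-, -, h⟩ | ⟨-, h, -⟩
        · rw [h, a4 a ha]
        · exact h
        · exact absurd h (by simp)
      -- the input is a gate of the modified program or false
      have hgate : ∀ (b : Bool) (a : Gt W), a ∈ M → ∀ sel, Lf b a sel = (fun _ => false) ∨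
          ∃ a' ∈ M.map (md (m' sel)), a'.S = a.S ∧ a'.f = Lf b a sel := by
        intro b a ha sel
        rcases hLf b a sel with ⟨-, h⟩ | ⟨h', -, h⟩ | ⟨-, -, h⟩
        · exact Or.inr ⟨md (m' sel) a, List.mem_map_of_mem ha, rfl, h.symm⟩
        · exact Or.inr ⟨a, hsame sel a ha h', rfl, h.symm⟩
        · exact Or.inl h
      refine DD_step hg a1 a2 a3 a4 a5 (fun sel x => Lf true p sel x || Lf false q sel x) ?_
        (fun h => absurd hgB h) ?_ ?_ ?_
      · intro sel
        rcases hgate true p hp sel with e1 | ⟨p', hp', e1, e2⟩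
        · rcases hgate false q hq sel with e3 | ⟨q', hq', e3, e4⟩
          · rw [e1, e3]
            exact DD_leaf_false _ _
          · refine Or.inr (Or.inl ⟨q', hq', by rw [e3]; exact h5, ?_⟩)
            funext x
            rw [e1, e4]
            rfl
        · rcases hgate false q hq sel with e3 | ⟨q', hq', e3, e4⟩
          · refine Or.inr (Or.inl ⟨p', hp', by rw [e1]; exact h4, ?_⟩)
            funext x
            rw [e3, e2]
            exact Bool.or_false _
          · refine Or.inr (Or.inr (Or.inr (Or.inl ⟨p', hp', q', hq', ?_, by rw [e1]; exact h4,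
              by rw [e3]; exact h5, ?_⟩)))
            · rintro x ⟨e5, e6⟩
              rw [e2] at e5
              rw [e4] at e6
              exact h3 x ⟨hle1 true p hp sel x e5, hle1 false q hq sel x e6⟩
            · rw [e2, e4]
      · intro sel x h
        rw [h8]
        show (p.f x || q.f x) = true
        rcases Bool.or_eq_true_iff.1 h with h | h
        · rw [hle1 true p hp sel x h]
          rfl
        · rw [hle1 false q hq sel x h]
          exact Bool.or_true _
      · rw [h8, htr true p hp, htr false q hq]
      · intro N hN hdis _ hgS hnd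
        have hgp : ∀ x, p.f x = true → g.f x = true := by
          intro x h
          rw [h8]
          show (p.f x || q.f x) = true
          rw [h]
          rfl
        have hgq : ∀ x, q.f x = true → g.f x = true := by
          intro x h
          rw [h8]
          show (p.f x || q.f x) = true
          rw [h]
          exact Bool.or_true _
        obtain ⟨N₁, F₁, T₁, c1, c2, c3, c4, c5⟩ := DD_child (w := w) (t := t) (s := s) a3 hp h4 hgS
          hgB (hdep p hp) hnd true hN fun x e1 e2 e3 => hdis p hp x e1 e2 e3 (hgp x e3)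
        obtain ⟨N₂, F₂, T₂, d1, d2, d3, d4, d5⟩ := DD_child (w := w) (t := t) (s := s) a3 hq h5 hgS
          hgB (hdep q hq) hnd false c1 fun x e1 e2 e3 => by
            rcases c2 q x e1 with e4 | ⟨e4, -⟩
            · exact hdis q hq x e4 e2 e3 (hgq x e3)
            · subst e4
              exact h3 x ⟨e3, e3⟩
        have hF : Disjoint F₁ F₂ := by
          refine disjoint_of_subset_left c3 (disjoint_of_subset_right d3 ?_)
          simp
        refine ⟨N₂, F₁ ∪ F₂, fun q => if q.2 = true then T₁ q else T₂ q, d1, ?_, ?_, ?_, ?_⟩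
        · have e1 := card_le_card c3
          have e2 := card_le_card d3
          rw [card_singleton] at e1 e2
          exact (card_union_le _ _).trans (by omega)
        · intro r hr
          rcases mem_union.1 hr with hr | hr
          · have := c3 hr
            rw [mem_singleton] at this
            rw [this]
          · have := d3 hr
            rw [mem_singleton] at this
            rw [this]
        · intro r hr
          rcases mem_union.1 hr with hr | hr
          · have := c3 hr
            rw [mem_singleton] at this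
            have h' := c4 r hr
            rw [this] at h' ⊢
            simpa using h'
          · have := d3 hr
            rw [mem_singleton] at this
            have h' := d4 r hr
            rw [this] at h' ⊢
            simpa using h'
        · intro sel x
          have e1 := c5 sel _ (hLf true p sel) x
          have e2 := d5 sel _ (hLf false q sel) x
          have e3 : tS (F₁ ∪ F₂) (fun q => if q.2 = true then T₁ q else T₂ q) sel x =
              tS F₁ T₁ sel x + tS F₂ T₂ sel x := by
            unfold tS
            rw [Finset.sum_union hF]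
            congr 1
            · refine Finset.sum_congr rfl fun r hr => ?_
              have := c3 hr
              rw [mem_singleton] at this
              rw [this]
              simp
            · refine Finset.sum_congr rfl fun r hr => ?_
              have := d3 hr
              rw [mem_singleton] at this
              rw [this]
              simp
          have e4 : (Lf true p sel x || Lf false q sel x).toNat =
              (Lf true p sel x).toNat + (Lf false q sel x).toNat := by
            have e5 : ¬ (Lf true p sel x = true ∧ Lf false q sel x = true) := fun h =>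
              h3 x ⟨hle1 true p hp sel x h.1, hle1 false q hq sel x h.2⟩
            revert e5
            cases Lf true p sel x <;> cases Lf false q sel x <;> simp
          rw [e3]
          show dS N (m' sel) M x +
            (N g x).toNat * (Lf true p sel x || Lf false q sel x).toNat = _
          rw [e4, mul_add]
          omega
    · -- NOT
      refine hexit (fun sel => Or.inr (Or.inr (Or.inr (Or.inr ⟨f, h3, h5⟩)))) fun n hgS hn => ?_
      refine Or.inr (Or.inl ⟨g.S, hgS, hgB, n, f, hn, h3, ?_⟩)
      rw [h5]

private lemma DD_bv (b : Bool) : bv b = (b.toNat : ℝ) := by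
  cases b <;> simp [bv]

theorem thm_DDec : St_DDec := by
  classical
  intro W _ w t s r f S B hB hw hf
  obtain ⟨L, hL, hLr, g₀, hg₀, hgf, hgS⟩ := hf
  have hr : 1 ≤ r := le_trans (List.length_pos_of_mem hg₀) hLr
  have hdep := DD_dep hL
  by_cases hgB : Hv B g₀
  · obtain ⟨m, a1, a2, a3, a4, a5⟩ := DD_main (S := S) hB hw hL
    have hval : Val S B L fun v => if v = g₀ then fun _ => true else fun _ => false := by
      intro v hv
      by_cases hvg : v = g₀
      · subst hvg
        right
        refine ⟨hgB, hgS, ?_⟩
        simp only [if_true]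
        exact fun _ _ _ => rfl
      · left
        intro x
        simp [hvg]
    have hdS : ∀ (φ : Gt W → (W → Bool) → Bool) x,
        dS (fun v => if v = g₀ then fun _ => true else fun _ => false) φ L x =
          (φ g₀ x).toNat := by
      intro φ x
      unfold dS
      rw [Finset.sum_eq_single_of_mem g₀ (List.mem_toFinset.2 hg₀) fun v _ hvg => by
        simp [hvg]]
      simp
    obtain ⟨F, T, c1, c2, c3, c4⟩ := a5 _ hval fun x => by
      rw [hdS]
      exact Bool.toNat_le _
    let eF := F.equivFin
    refine ⟨F.card, fun j => T (eF.symm j).1, c1.trans (by omega),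
      fun j => c3 _ (eF.symm j).2, ?_, ?_⟩
    · intro x
      have h1 := c4 (fun _ => true) x
      rw [hdS, a4 g₀ hg₀, hgf] at h1
      rw [DD_bv, h1]
      unfold tS
      simp only [if_true, DD_bv]
      rw [← Finset.sum_coe_sort F, ← Equiv.sum_comp eF.symm]
      push_cast
      rfl
    · intro τ
      set sel : Gt W × Bool → Bool := fun q => if h : q ∈ F then τ (eF ⟨q, h⟩) else false with hsel
      refine ⟨m sel g₀, ⟨L.map (md (m sel)), a1 sel, by rw [List.length_map]; exact hLr,
        md (m sel) g₀, List.mem_map_of_mem hg₀, rfl, hgS⟩, ?_⟩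
      intro x
      have h1 := c4 sel x
      rw [hdS] at h1
      rw [DD_bv, h1]
      unfold tS
      rw [← Finset.sum_coe_sort F, ← Equiv.sum_comp eF.symm]
      push_cast
      refine Finset.sum_congr rfl fun j _ => ?_
      have h2 : sel (eF.symm j).1 = τ j := by
        rw [hsel]
        simp only [(eF.symm j).2, dif_pos]
        congr 1
        exact eF.apply_symm_apply j
      rw [h2]
      by_cases h3 : τ j = true
      · rw [if_pos h3, if_pos h3, DD_bv]
      · rw [if_neg h3, if_neg h3]
  · -- the output gate is not heavy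
    refine ⟨1, fun _ => f, by omega, fun _ => ?_, fun x => by simp, fun τ => ?_⟩
    · have hfd : DepOn f g₀.S := by
        rw [← hgf]
        exact hdep g₀ hg₀
      unfold Hv at hgB
      by_cases hrB' : B.card ≤ 16 * (B ∩ g₀.S).card
      · refine Or.inl ⟨g₀.S, hgS, hrB', by omega, f, fun _ => true, hfd, fun _ _ _ => rfl, ?_⟩
        funext x
        rw [Bool.and_true]
      · exact Or.inr (Or.inr ⟨g₀.S, hgS, by omega, hfd⟩)
    · by_cases h : τ 0 = true
      · refine ⟨f, ⟨L, hL, hLr, g₀, hg₀, hgf, hgS⟩, fun x => ?_⟩
        simp [h]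
      · refine ⟨fun _ => false, ⟨[⟨fun _ => false, ∅, 0⟩], DProg.cons DProg.nil
          (DD_leaf_false _ _), by simpa using hr, _, List.mem_singleton_self _, rfl, by simp⟩,
          fun x => ?_⟩
        simp [h, bv]

end Dec

end Pool.Agent.NHV
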