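import Pool.Agent.NHV.Defs
import Pool.Agent.NH.Sub

/-!
# The negation hierarchy: simple properties of outer layers
-/

set_option autoImplicit false

namespace Pool.Agent.NHV

open Finset Pool.Agent.NH

section DSub

variable {W : Type} [DecidableEq W]

omit [DecidableEq W] in
private lemma dsub_mono {β : Type} {f : (W → Bool) → β} {S T : Finset W} (h : DepOn f S)
    (hST : S ⊆ T) : DepOn f T := fun x y hxy => h x y fun v hv => hxy v (hST hv)

/-- the gates of level less than `t` of a program are a program -/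
private lemma dsub_filter {w : ℕ} {L : List (Gt W)} (h : Prog w L) (t : ℕ) :
    Prog w (L.filter fun g => decide (g.l < t)) := by
  induction h with
  | nil => exact Prog.nil
  | cons h1 h2 ih =>
    rename_i L g
    by_cases hg : g.l < t
    · rw [List.filter_cons_of_pos (by simpa using hg)]
      refine Prog.cons ih ?_
      have key : ∀ p ∈ L, p.l ≤ g.l → p ∈ L.filter fun g => decide (g.l < t) := fun p hp hl =>
        List.mem_filter.2 ⟨hp, by simpa using lt_of_le_of_lt hl hg⟩
      rcases h2 with h | ⟨p, hp, q, hq, h3, h4, h5, h6, h7, h8⟩ |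
        ⟨p, hp, q, hq, h3, h4, h5, h6, h7, h8⟩ | ⟨p, hp, h3, h4, h5⟩
      · exact Or.inl h
      · exact Or.inr (Or.inl ⟨p, key p hp h6, q, key q hq h7, h3, h4, h5, h6, h7, h8⟩)
      · exact Or.inr (Or.inr (Or.inl ⟨p, key p hp h6, q, key q hq h7, h3, h4, h5, h6, h7, h8⟩))
      · exact Or.inr (Or.inr (Or.inr ⟨p, key p hp h4.le, h3, h4, h5⟩))
    · rw [List.filter_cons_of_neg (by simpa using hg)]
      exact ih

/-- a program of levels at most `t` is an outer layer -/
private lemma dsub_prog {w : ℕ} {L : List (Gt W)} (h : Prog w L) (t s : ℕ) (hs : L.length ≤ s)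
    (hl : ∀ g ∈ L, g.l < t + 1) : DProg w t s L := by
  induction h with
  | nil => exact DProg.nil
  | cons h1 h2 ih =>
    rename_i L g
    rw [List.length_cons] at hs
    refine DProg.cons (ih (by omega) fun p hp => hl p (List.mem_cons_of_mem _ hp)) ?_
    rcases h2 with h | ⟨p, hp, q, hq, h3, h4, h5, -, -, h8⟩ |
      ⟨p, hp, q, hq, h3, h4, h5, -, -, h8⟩ | ⟨p, hp, h3, h4, h5⟩
    · exact Or.inl h
    · exact Or.inr (Or.inr (Or.inl ⟨p, hp, q, hq, h3, h4, h5, h8⟩))
    · exact Or.inr (Or.inr (Or.inr (Or.inl ⟨p, hp, q, hq, h3, h4, h5, h8⟩)))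
    · have hg := hl g List.mem_cons_self
      refine Or.inr (Or.inr (Or.inr (Or.inr ⟨p.f, ⟨L.filter fun g => decide (g.l < t),
        dsub_filter h1 t, (List.length_filter_le _ _).trans (by omega), ?_, p, ?_, rfl, h3⟩,
        h5⟩)))
      · intro q hq
        simpa using (List.mem_filter.1 hq).2
      · exact List.mem_filter.2 ⟨hp, by simpa using (by omega : p.l < t)⟩

/-- every gate depends only on its variables -/
private lemma dsub_dep {w t s : ℕ} {L : List (Gt W)} (h : DProg w t s L) :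
    ∀ g ∈ L, DepOn g.f g.S := by
  induction h with
  | nil => intro g hg; exact absurd hg List.not_mem_nil
  | cons hL hok ih =>
    rename_i L g
    intro g' hg'
    rcases List.mem_cons.mp hg' with rfl | hg'
    · rcases hok with ⟨S, hS, -, hd⟩ | ⟨p, hp, hpS, hf⟩ | ⟨p, hp, q, hq, -, hpS, hqS, hf⟩ |
        ⟨p, hp, q, hq, -, hpS, hqS, hf⟩ | ⟨f, hK, hf⟩
      · exact dsub_mono hd hS
      · rw [hf]
        exact dsub_mono (ih p hp) hpS
      · intro x y hxy
        rw [hf]
        show (p.f x && q.f x) = (p.f y && q.f y)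
        rw [ih p hp x y fun v hv => hxy v (hpS hv), ih q hq x y fun v hv => hxy v (hqS hv)]
      · intro x y hxy
        rw [hf]
        show (p.f x || q.f x) = (p.f y || q.f y)
        rw [ih p hp x y fun v hv => hxy v (hpS hv), ih q hq x y fun v hv => hxy v (hqS hv)]
      · intro x y hxy
        rw [hf]
        show (!f x) = (!f y)
        rw [(thm_Sub W w t s f _ hK).1 x y hxy]
    · exact ih g' hg'

/-- the gate after fixing variables -/
private def dsubG (φ : (W → Bool) → W → Bool) (g : Gt W) : Gt W := ⟨fun x => g.f (φ x), g.S, g.l⟩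

private lemma dsub_map {w t s : ℕ} {L : List (Gt W)} (h : DProg w t s L)
    (φ : (W → Bool) → W → Bool) (hφ : ∀ v, (∃ b, ∀ x, φ x v = b) ∨ ∀ x, φ x v = x v) :
    DProg w t s (L.map (dsubG φ)) := by
  induction h with
  | nil => exact DProg.nil
  | cons hL hok ih =>
    rename_i L g
    rw [List.map_cons]
    refine DProg.cons ih ?_
    rcases hok with ⟨S, hS, hc, hd⟩ | ⟨p, hp, hpS, hf⟩ | ⟨p, hp, q, hq, hdj, hpS, hqS, hf⟩ |
      ⟨p, hp, q, hq, hdet, hpS, hqS, hf⟩ | ⟨f, hK, hf⟩
    · refine Or.inl ⟨S, hS, hc, fun x y hxy => hd _ _ fun v hv => ?_⟩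
      rcases hφ v with ⟨b, hb⟩ | hv'
      · rw [hb, hb]
      · rw [hv', hv', hxy v hv]
    · refine Or.inr (Or.inl ⟨dsubG φ p, List.mem_map_of_mem hp, hpS, ?_⟩)
      show (fun x => g.f (φ x)) = fun x => p.f (φ x)
      rw [hf]
    · refine Or.inr (Or.inr (Or.inl ⟨dsubG φ p, List.mem_map_of_mem hp, dsubG φ q,
        List.mem_map_of_mem hq, hdj, hpS, hqS, ?_⟩))
      show (fun x => g.f (φ x)) = fun x => p.f (φ x) && q.f (φ x)
      rw [hf]
    · refine Or.inr (Or.inr (Or.inr (Or.inl ⟨dsubG φ p, List.mem_map_of_mem hp, dsubG φ q,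
        List.mem_map_of_mem hq, fun x => hdet (φ x), hpS, hqS, ?_⟩)))
      show (fun x => g.f (φ x)) = fun x => p.f (φ x) || q.f (φ x)
      rw [hf]
    · refine Or.inr (Or.inr (Or.inr (Or.inr ⟨fun x => f (φ x), ?_, ?_⟩)))
      · exact (thm_Sub W w t s f _ hK).2 φ hφ
      · show (fun x => g.f (φ x)) = fun x => !f (φ x)
        rw [hf]

end DSub

theorem thm_DSub : St_DSub := by
  intro W _ w t s
  refine ⟨?_, ?_, ?_⟩
  · rintro f S ⟨L, hL, hlen, hlev, g, hg, hgf, hgS⟩
    exact ⟨L, dsub_prog hL t s hlen hlev, hlen, g, hg, hgf, hgS⟩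
  · intro r S hr
    refine ⟨[⟨fun _ => false, ∅, 0⟩], DProg.cons DProg.nil (Or.inl ⟨∅, subset_refl _, by simp,
      fun _ _ _ => rfl⟩), by simpa using hr, _, List.mem_cons_self, rfl, empty_subset _⟩
  · rintro r f S ⟨L, hL, hlen, g, hg, hgf, hgS⟩
    refine ⟨?_, ?_⟩
    · rw [← hgf]
      exact dsub_mono (dsub_dep hL g hg) hgS
    · intro φ hφ
      refine ⟨L.map (dsubG φ), dsub_map hL φ hφ, by rw [List.length_map]; exact hlen, dsubG φ g,
        List.mem_map_of_mem hg, ?_, hgS⟩
      show (fun x => g.f (φ x)) = _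
      rw [hgf]

end Pool.Agent.NHV
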