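import Pool.Agent.NH.Defs
import Pool.Agent.NH.Circ

/-!
# The negation hierarchy with the exponent `1 / (t + 1)`: definitions and statements

The improvement over `Pool/Agent/NH`: in [M] the error does not grow with the number of blocks.
The programs are split into an outer layer (whose NOT gates are atoms) and programs of lower level.
The sum of any set of terms of the decomposition [DDec] is computed by an outer layer with the SAME
number of gates; so the decompositions for the blocks can be made one after the other without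
increasing the size, and there are only `2 * s` terms for each block.
-/

set_option autoImplicit false

namespace Pool.Agent.NHV

open Finset Pool.Agent.NH

/-- a gate of the outer layer: a function of at most `w` variables, a copy, a decomposable AND, a
deterministic OR, or the negation of a function computed by a program of size `s` and levels less
than `t` -/
def DOk {W : Type} [DecidableEq W] (w t s : ℕ) (L : List (Gt W)) (g : Gt W) : Prop :=
  (∃ S ⊆ g.S, S.card ≤ w ∧ DepOn g.f S) ∨
  (∃ p ∈ L, p.S ⊆ g.S ∧ g.f = p.f) ∨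
  (∃ p ∈ L, ∃ q ∈ L, Disjoint p.S q.S ∧ p.S ⊆ g.S ∧ q.S ⊆ g.S ∧ g.f = fun x => p.f x && q.f x) ∨
  (∃ p ∈ L, ∃ q ∈ L, (∀ x, ¬ (p.f x = true ∧ q.f x = true)) ∧ p.S ⊆ g.S ∧ q.S ⊆ g.S ∧
    g.f = fun x => p.f x || q.f x) ∨
  (∃ f : (W → Bool) → Bool, Kc w t s f g.S ∧ g.f = fun x => !f x)

/-- outer layers, the last gate first -/
inductive DProg {W : Type} [DecidableEq W] (w t s : ℕ) : List (Gt W) → Prop
  | nil : DProg w t s []
  | cons {L : List (Gt W)} {g : Gt W} : DProg w t s L → DOk w t s L g → DProg w t s (g :: L)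

/-- `f` is computed by an outer layer with at most `r` gates, with variables in `S` -/
def Dc {W : Type} [DecidableEq W] (w t s r : ℕ) (f : (W → Bool) → Bool) (S : Finset W) : Prop :=
  ∃ L : List (Gt W), DProg w t s L ∧ L.length ≤ r ∧ ∃ g ∈ L, g.f = f ∧ g.S ⊆ S

/-- [DSub] simple properties of outer layers -/
def St_DSub : Prop :=
  ∀ (W : Type) [DecidableEq W] (w t s : ℕ),
    (∀ (f : (W → Bool) → Bool) (S : Finset W), Kc w (t + 1) s f S → Dc w t s s f S) ∧
    (∀ (r : ℕ) (S : Finset W), 1 ≤ r → Dc w t s r (fun _ => false) S) ∧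
    ∀ (r : ℕ) (f : (W → Bool) → Bool) (S : Finset W), Dc w t s r f S → DepOn f S ∧
      ∀ φ : (W → Bool) → W → Bool,
        (∀ v, (∃ b, ∀ x, φ x v = b) ∨ ∀ x, φ x v = x v) → Dc w t s r (fun x => f (φ x)) S

/-- [DDec] decomposition of a function with respect to a set of variables. The sum of any set of
terms is computed with the same number of gates. PROOF. As `NH/Dec.lean`: the heavy gates `v`
(`16 * (B \ v.S).card < B.card`) are processed from the output down; `N v` is the sum of the
contexts of the occurrences of `v` (a function of the variables in `S \ v.S`; now only a function,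
not a program). Exits: heavy leaves, NOT gates, AND gates without heavy input; inputs of heavy OR
gates and copies which are not heavy. For a set of exits let `m v` be the function of the gate `v`
if the other exits are replaced by `false` (`m v = v.f` for gates which are not heavy); this is an
outer layer with the same number of gates, and `∑ v, N v * m v` over the frontier is the sum of the
selected terms. -/
def St_DDec : Prop :=
  ∀ (W : Type) [DecidableEq W] (w t s r : ℕ) (f : (W → Bool) → Bool) (S B : Finset W),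
    0 < B.card → 8 * w ≤ B.card → Dc w t s r f S →
    ∃ (m : ℕ) (T : Fin m → (W → Bool) → Bool), m ≤ 2 * r ∧ (∀ j, TermTy w t s B S (T j)) ∧
      (∀ x, bv (f x) = ∑ j, bv (T j x)) ∧
      ∀ τ : Fin m → Bool, ∃ g : (W → Bool) → Bool, Dc w t s r g S ∧
        ∀ x, bv (g x) = ∑ j, if τ j = true then bv (T j x) else 0

/-- [M2] `MP` for every number of blocks, with the same error. PROOF. Induction on the number of
blocks for functions `g` with `Dc w t s s g SG`: between `-ω` and `(9 / 10) ^ k + ω` with
`ω = 20 * s * (η + 3 * δ)`. For the first block take the terms `T j` from [DDec] (or `T = g` if `SA`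
contains a sixteenth of the top bits of the block). By `M_term` (private in `NH/M.lean`) the factor
`2 h - 1` of the block can be replaced in the term `j` by a function `r j y` of the variables `y` of
the block, `0 ≤ r j y ≤ ρ y := 1 / 2 + h y / 2`, with the error `η + 3 δ` for every term. For fixed
`y` let `a j` be the mean of the rest (the other blocks) of the term `j`; the sum of the `r j y * a j`
is at least `ρ y` times the sum of the negative `a j` and at most `ρ y` times the sum of the
positive `a j`. The sum of the terms with `a j < 0` is computed by an outer layer of the same size, so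
by induction the sum of the negative `a j` is at least `-ω`, and the sum of the positive `a j` is at
most `(9 / 10) ^ k + ω`. Since the mean of `ρ` is at most `9 / 10`, the total is at least
`-(9 / 10) * ω - 2 * s * (η + 3 * δ) = -ω`, and the same for the upper bound. -/
def St_M2 : Prop :=
  ∀ (K : Type) [Fintype K] [DecidableEq K] (σ : Fin 3 → Equiv.Perm K) (w : ℕ),
    0 < Fintype.card K → 4 * w ≤ Fintype.card K →
    ∀ (U : Type) [Fintype U] [DecidableEq U] (h : (U → Bool) → Bool) (δ η : ℝ) (t s : ℕ),
    0 ≤ δ → 0 ≤ η → 1 ≤ s →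
    NP w σ h t s δ → RS1 (up σ h) (top K U) η → Ex (fun x => bv (up σ h x)) ≤ 4 / 5 →
    ∀ J : ℕ, MP w (up σ h) (top K U) (t + 1) s J (20 * s * (η + 3 * δ))

/-- [ParV] blocks for every number `t` of nested negations and all numbers `r`, of size
`(A * (t + 1) * (r + 1)) ^ (t + 1)`. PROOF. As `NH/ParU.lean`, with the same `s = 2 ^ r` and `w = r`
on all levels. Show by induction on `t`, for all `a ≥ r`: there is a block with
`NP r σ h t (2 ^ r) ((1 / 2) ^ a)`, `RS1 (up σ h) (top K U) ((1 / 2) ^ a)` and
`card (Bk K U) ≤ ∏ j ∈ range (t + 1), C * (a + j * (r + 8) + 1)` (so `4 * r ≤ card K ≤ C' * (a + 1)`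
by [Lin]). Step: `a' = a + r + 8` on the lower level; `20 * 2 ^ r * 4 * 2 ^ (-a') ≤ 2 ^ (-a - 1)`,
`J = 14 * (a + 1)`, `(19 / 20) ^ J ≤ 2 ^ (-a - 1)`, `card K ≥ 20 * J`. Finally `a = 4 * r + 4` and
`a + j * (r + 8) + 1 ≤ 13 * (t + 1) * (r + 1)`. -/
def St_ParV : Prop :=
  ∃ A C : ℕ, ∀ t r : ℕ, ∃ (K U : Type) (_ : Fintype K) (_ : DecidableEq K) (_ : Fintype U)
    (_ : DecidableEq U) (σ : Fin 3 → Equiv.Perm K) (h : (U → Bool) → Bool),
    0 < Fintype.card K ∧ 4 * r ≤ Fintype.card K ∧
    Fintype.card (Bk K U) ≤ (A * (t + 1) * (r + 1)) ^ (t + 1) ∧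
    UpP (up σ h) t (t + 1) (C * Fintype.card (Bk K U)) ∧
    Fair (up σ h) (top K U) ∧
    NP r σ h t (2 ^ r) ((1 / 2) ^ (4 * r + 4)) ∧ RS1 (up σ h) (top K U) ((1 / 2) ^ (4 * r + 4))

/-- [FinalV] the final statement: `α = c * n ^ (1 / (t + 1)) / (t + 1)`. PROOF. As
`NH/FinalU.lean`, `NH/FinalZ.lean`, with [M2] for one block in place of [M]. -/
def St_FinalV : Prop :=
  ∃ (c : ℝ) (C : ℕ), 0 < c ∧ ∀ t n : ℕ, 1 ≤ n → ∀ α : ℝ,
    α = c * (n : ℝ) ^ (1 / ((t : ℝ) + 1)) / (t + 1) → ∃ F : (Fin n → Bool) → Bool,
    (∃ L : List (Gate (Fin n)), IsCircuit 1 L ∧ L.length ≤ C * n ∧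
      ∃ g ∈ L, g.negs ≤ t ∧ g.det = true ∧ ∀ x, g.f x = !F x) ∧
    (∃ (s : ℕ) (φ : CNF (Fin n ⊕ Fin s)), s ≤ C * n ∧ φ.length ≤ C * n ∧
      (∀ K ∈ φ, K.length ≤ 3) ∧
      ∀ x, (F x = true → ∃! y : Fin s → Bool, Sat φ (Sum.elim x y)) ∧
        (F x = false → ∀ y : Fin s → Bool, ¬ Sat φ (Sum.elim x y))) ∧
    (2 ^ n ≤ 5 * (univ.filter fun x => F x = true).card ∧
      2 * (univ.filter fun x => F x = true).card ≤ 2 ^ n) ∧
    ∀ (k : ℕ) (L : List (Gate (Fin n))), (k : ℝ) ≤ α → IsCircuit k L → ∀ g ∈ L, g.negs ≤ t →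
      (g.det = true → (2 : ℝ) ^ α *
        ((univ.filter fun x => g.f x = F x).card - (univ.filter fun x => F x = false).card) ≤
          L.length * 2 ^ n) ∧
      ((∀ x, g.f x = true → F x = true) →
        (2 : ℝ) ^ α * (univ.filter fun x => g.f x = true).card ≤ L.length * 2 ^ n)

end Pool.Agent.NHV
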