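import Pool.Agent.NHV.Defs
import Pool.Agent.NH.Cnv
import Pool.Agent.NH.Tse
import Pool.Agent.NH.Base

/-!
# The negation hierarchy with the exponent `1 / (t + 1)`: the final theorem
-/

set_option autoImplicit false

namespace Pool.Agent.NHV

open Finset Pool.Agent.NH

private lemma fv_mono {V : Type} [DecidableEq V] {k l : ℕ} {L : List (Gate V)}
    (h : IsCircuit k L) (hkl : k ≤ l) : IsCircuit l L := by
  induction h with
  | nil => exact IsCircuit.nil
  | leaf L S f _ hS hf ih => exact IsCircuit.leaf L S f ih (hS.trans hkl) hf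
  | and L a b _ ha hb hd ih => exact IsCircuit.and L a b ih ha hb hd
  | or L a b _ ha hb ih => exact IsCircuit.or L a b ih ha hb
  | detOr L a b _ ha hb h1 h2 hd ih => exact IsCircuit.detOr L a b ih ha hb h1 h2 hd
  | not L a _ ha h1 ih => exact IsCircuit.not L a ih ha h1

/-- the complement of `F` has a small circuit with `t` nested negations -/
def fv_Easy (n t C : ℕ) (F : (Fin n → Bool) → Bool) : Prop :=
  ∃ L : List (Gate (Fin n)), IsCircuit 1 L ∧ L.length ≤ C * n ∧
      ∃ g ∈ L, g.negs ≤ t ∧ g.det = true ∧ ∀ x, g.f x = !F x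

/-- the density of `F` -/
def fv_Dens (n : ℕ) (F : (Fin n → Bool) → Bool) : Prop :=
  2 ^ n ≤ 5 * (univ.filter fun x => F x = true).card ∧
      2 * (univ.filter fun x => F x = true).card ≤ 2 ^ n

/-- circuits with `t` nested negations are far from `F` -/
def fv_HardF (n t : ℕ) (α : ℝ) (F : (Fin n → Bool) → Bool) : Prop :=
  ∀ (k : ℕ) (L : List (Gate (Fin n))), (k : ℝ) ≤ α → IsCircuit k L → ∀ g ∈ L, g.negs ≤ t →
      (g.det = true →
        (2 : ℝ) ^ α *
          ((univ.filter fun x => g.f x = F x).card - (univ.filter fun x => F x = false).card) ≤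
          L.length * 2 ^ n) ∧
      ((∀ x, g.f x = true → F x = true) →
        (2 : ℝ) ^ α * (univ.filter fun x => g.f x = true).card ≤ L.length * 2 ^ n)

private lemma fv_Ex_card {n : ℕ} (f : (Fin n → Bool) → Bool) :
    Ex (fun x => bv (f x)) = ((univ.filter fun x => f x = true).card : ℝ) / 2 ^ n := by
  rw [Ex, Fintype.card_fin]
  congr 1
  rw [Finset.card_filter]
  push_cast
  apply Finset.sum_congr rfl
  intro x _
  cases f x <;> simp [bv]

private lemma fv_card_le {n : ℕ} (p : (Fin n → Bool) → Prop) [DecidablePred p] :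
    ((univ.filter p).card : ℝ) ≤ 2 ^ n := by
  have : (univ.filter p).card ≤ 2 ^ n := by
    refine (card_le_univ _).trans (le_of_eq ?_)
    rw [Fintype.card_fun, Fintype.card_bool, Fintype.card_fin]
  exact_mod_cast this

private lemma fv_main (h2 : St_Outer) (h3 : St_M2) {K U : Type} [Fintype K] [DecidableEq K]
    [Fintype U] [DecidableEq U] (σ : Fin 3 → Equiv.Perm K) (h : (U → Bool) → Bool) (t r C : ℕ)
    (hK0 : 0 < Fintype.card K) (hKr : 4 * (r + 3) ≤ Fintype.card K)
    (hUp : UpP (up σ h) t (t + 1) (C * Fintype.card (Bk K U)))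
    (hFair : Fair (up σ h) (top K U))
    (hNP : NP (r + 3) σ h t (2 ^ (r + 3)) ((1 / 2) ^ (4 * (r + 3) + 4)))
    (hRS : RS1 (up σ h) (top K U) ((1 / 2) ^ (4 * (r + 3) + 4)))
    (n : ℕ) (hcn : Fintype.card (Bk K U) ≤ n) (α : ℝ) (hαr : α ≤ r) :
    ∃ F : (Fin n → Bool) → Bool, fv_Easy n t C F ∧ fv_Dens n F ∧ fv_HardF n t α F := by
  obtain ⟨e⟩ : Nonempty (Bk K U ↪ Fin n) :=
    Function.Embedding.nonempty_of_card_le (by rwa [Fintype.card_fin])
  have he := e.injective
  have hmean : 1 / 2 ≤ Ex (fun x => bv (up σ h x)) ∧ Ex (fun x => bv (up σ h x)) ≤ 4 / 5 := by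
    have f1 := hFair ∅ (by simp) fun _ => false
    have f2 : Ex (fun x => bv (up σ h x)) =
        Ex (fun x => bv (up σ h (mix ∅ (fun _ => false) x))) := by
      apply Ex_congr
      intro x
      congr 2
    rw [f2]
    exact f1
  have hmean' : 1 / 2 ≤ Ex (fun x : Fin n → Bool => bv (up σ h fun v => x (e v))) ∧
      Ex (fun x : Fin n → Bool => bv (up σ h fun v => x (e v))) ≤ 4 / 5 := by
    rw [Ex_inj e he (fun y => bv (up σ h y))]
    exact hmean
  have hXr : ((1 : ℝ) / 2) ^ (4 * (r + 3) + 4) = 1 / (2 ^ r) ^ 4 / 65536 := by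
    rw [mul_add, pow_add, pow_add, pow_mul', one_div_pow, one_div_pow]
    norm_num [div_eq_mul_inv]
    ring
  refine ⟨fun x => !(up σ h fun v => x (e v)), ?_, ?_, ?_⟩
  · obtain ⟨L, hL, hlen, _, ⟨g, hg, hgf, hgl⟩, _⟩ := hUp
    obtain ⟨M, hM, hMlen, hall⟩ := hL.circuit e he
    obtain ⟨g', hg', _, a2, a3, a4⟩ := hall g hg
    refine ⟨M, hM, ?_, g', hg', a2.trans hgl, a3, ?_⟩
    · calc M.length ≤ L.length := hMlen
        _ ≤ C * Fintype.card (Bk K U) := hlen
        _ ≤ C * n := Nat.mul_le_mul_left _ hcn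
    · intro x
      rw [a4, hgf, Bool.not_not]
  · have f4 : Ex (fun x : Fin n → Bool => bv (!(up σ h fun v => x (e v)))) =
        1 - Ex (fun x : Fin n → Bool => bv (up σ h fun v => x (e v))) := by
      simp only [bv_not]
      rw [Ex_sub, Ex_const]
    constructor
    · have f5 : 1 / 5 ≤ Ex (fun x : Fin n → Bool => bv (!(up σ h fun v => x (e v)))) := by
        rw [f4]; linarith [hmean'.2]
      rw [fv_Ex_card, le_div_iff₀ (by positivity)] at f5
      have f6 : (2 : ℝ) ^ n ≤ 5 * ((univ.filter fun x : Fin n → Bool =>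
          (!(up σ h fun v => x (e v))) = true).card : ℝ) := by linarith
      exact_mod_cast f6
    · have f5 : Ex (fun x : Fin n → Bool => bv (!(up σ h fun v => x (e v)))) ≤ 1 / 2 := by
        rw [f4]; linarith [hmean'.1]
      rw [fv_Ex_card, div_le_iff₀ (by positivity)] at f5
      have f6 : 2 * ((univ.filter fun x : Fin n → Bool =>
          (!(up σ h fun v => x (e v))) = true).card : ℝ) ≤ (2 : ℝ) ^ n := by linarith
      exact_mod_cast f6
  · intro k L hk hL g hg hgt
    have hL1 : (1 : ℝ) ≤ L.length := by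
      exact_mod_cast List.length_pos_of_mem hg
    have hp : (2 : ℝ) ^ α ≤ 2 ^ r := by
      rw [← Real.rpow_natCast]
      exact Real.rpow_le_rpow_of_exponent_le (by norm_num) hαr
    have hp0 : (0 : ℝ) < 2 ^ α := by positivity
    rcases Nat.lt_or_ge (2 ^ r) L.length with hlt | hle
    · have c2 : (2 : ℝ) ^ r ≤ L.length := by exact_mod_cast hlt.le
      have big : ∀ X : ℝ, X ≤ 2 ^ n → (2 : ℝ) ^ α * X ≤ L.length * 2 ^ n := by
        intro X hX
        calc (2 : ℝ) ^ α * X ≤ (2 : ℝ) ^ α * 2 ^ n := by gcongr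
          _ ≤ 2 ^ r * 2 ^ n := by gcongr
          _ ≤ _ := by gcongr
      constructor
      · intro _
        apply big
        have a1 := fv_card_le fun x => g.f x = !(up σ h fun v => x (e v))
        have a2 : (0 : ℝ) ≤ ((univ.filter fun x : Fin n → Bool =>
          (!(up σ h fun v => x (e v))) = false).card : ℝ) := by positivity
        linarith
      · intro _
        apply big
        exact fv_card_le _
    · have hkr : k ≤ r := by exact_mod_cast hk.trans hαr
      have hL' := fv_mono hL (hkr.trans (Nat.le_add_right _ 3))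
      set X : ℝ := 2 ^ r with hX
      have hX1 : 1 ≤ X := one_le_pow₀ (by norm_num)
      have hX0 : 0 < X := by linarith
      have hXX : X ≤ X ^ 4 := by
        calc X = X ^ 1 := (pow_one X).symm
          _ ≤ X ^ 4 := pow_le_pow_right₀ hX1 (by norm_num)
      have hXX3 : X ≤ X ^ 3 := by
        calc X = X ^ 1 := (pow_one X).symm
          _ ≤ X ^ 3 := pow_le_pow_right₀ hX1 (by norm_num)
      have fin : ∀ Y : ℝ, Y / 2 ^ n ≤ 1 / X → (2 : ℝ) ^ α * Y ≤ L.length * 2 ^ n := by
        intro Y hY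
        rw [div_le_div_iff₀ (by positivity) hX0] at hY
        rcases le_or_gt 0 Y with hY0 | hY0
        · calc (2 : ℝ) ^ α * Y ≤ X * Y := by gcongr
            _ ≤ 1 * 2 ^ n := by linarith
            _ ≤ _ := by gcongr
        · have : (2 : ℝ) ^ α * Y ≤ 0 := mul_nonpos_of_nonneg_of_nonpos hp0.le hY0.le
          have h0 : (0 : ℝ) ≤ L.length * 2 ^ n := by positivity
          linarith
      constructor
      · intro hgd
        have hkc : Kc (r + 3) (t + 1) (2 ^ (r + 3)) g.f g.vars :=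
          hL'.kc (hle.trans (Nat.pow_le_pow_right (by norm_num) (by omega))) hg hgd (by omega)
        have hMP := h3 K σ (r + 3) hK0 hKr U h _ _ t (2 ^ (r + 3)) (by positivity)
          (by positivity) Nat.one_le_two_pow hNP hRS hmean.2 1
        have hb := (hMP (Fin n) Unit (fun p => e p.2) (by
            rintro ⟨⟨⟩, u⟩ ⟨⟨⟩, v⟩ huv
            have huv' : u = v := he huv
            rw [huv']) {()} (by simp) (fun _ => true) g.f ∅ g.vars (fun _ _ _ => rfl)
            (Finset.disjoint_empty_left _) (by simp) hkc).1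
        simp only [Finset.prod_singleton, bv_true, one_mul] at hb
        rw [hXr] at hb
        -- the agreement
        have key : (((univ.filter fun x => g.f x = !(up σ h fun v => x (e v))).card : ℝ) -
            (univ.filter fun x : Fin n → Bool => (!(up σ h fun v => x (e v))) = false).card) /
              2 ^ n = -Ex (fun x => bv (g.f x) * (2 * bv (up σ h fun v => x (e v)) - 1)) := by
          have b1 := fv_Ex_card (fun x => decide (g.f x = !(up σ h fun v => x (e v))))
          have b2 := fv_Ex_card (fun x : Fin n → Bool =>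
            decide ((!(up σ h fun v => x (e v))) = false))
          simp only [decide_eq_true_eq] at b1 b2
          rw [sub_div, ← b1, ← b2, ← Ex_sub, ← Ex_neg]
          apply Ex_congr
          intro x
          cases g.f x <;> cases up σ h (fun v => x (e v)) <;> norm_num [bv]
        apply fin
        rw [key]
        have b3 : 20 * ((2 ^ (r + 3) : ℕ) : ℝ) * (1 / X ^ 4 / 65536 + 3 * (1 / X ^ 4 / 65536))
            ≤ 1 / X := by
          push_cast
          rw [pow_add, ← hX]
          have e2 : 20 * (X * 2 ^ 3) * (1 / X ^ 4 / 65536 + 3 * (1 / X ^ 4 / 65536)) =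
              640 / (65536 * X ^ 3) := by
            field_simp; ring
          rw [e2, div_le_div_iff₀ (by positivity) hX0]
          nlinarith
        have b4 : -Ex (fun x => bv (g.f x) * (2 * bv (up σ h fun v => x (e v)) - 1)) ≤
            20 * ((2 ^ (r + 3) : ℕ) : ℝ) * (1 / X ^ 4 / 65536 + 3 * (1 / X ^ 4 / 65536)) := by
          linarith
        exact b4.trans b3
      · intro hgF
        have ho := hL'.oprog t (2 ^ (r + 3)) (hle.trans (Nat.pow_le_pow_right (by norm_num)
          (by omega)))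
        have hb := h2 K σ (r + 3) hK0 hKr U h _ _ t (2 ^ (r + 3)) (by positivity)
          (by positivity) hNP hRS
          (Fin n) e he _ ho (by
            rw [List.length_map]
            exact (List.length_filter_le _ _).trans (hle.trans (Nat.pow_le_pow_right (by norm_num)
              (by omega)))) g.toGt
          (List.mem_map_of_mem (List.mem_filter.2 ⟨hg, by simp [hgt]⟩)) (fun x hx => by
            have := hgF x hx
            simpa using this)
        apply fin
        rw [← fv_Ex_card]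
        refine hb.trans ?_
        rw [hXr]
        push_cast
        rw [pow_add, ← hX]
        have e2 : 2 * (X * 2 ^ 3) * (1 / X ^ 4 / 65536 + 3 * (1 / X ^ 4 / 65536)) =
            1 / (1024 * X ^ 3) := by
          field_simp; ring
        rw [e2]
        apply one_div_le_one_div_of_le hX0
        nlinarith

/-- a variable, for small `n` -/
private lemma fv_triv (n t : ℕ) (hn : 1 ≤ n) (α : ℝ) (hα : α ≤ 1) :
    ∃ F : (Fin n → Bool) → Bool, fv_Easy n t 1 F ∧ fv_Dens n F ∧ fv_HardF n t α F := by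
  have hcard : (univ.filter fun x : Fin n → Bool => x ⟨0, hn⟩ = true).card * 2 = 2 ^ n := by
    have h1 := fv_Ex_card (fun x : Fin n → Bool => x ⟨0, hn⟩)
    rw [Ex_bit (V := Fin n) ⟨0, hn⟩ bv, eq_div_iff (by positivity)] at h1
    norm_num [bv] at h1
    have h2 : ((univ.filter fun x : Fin n → Bool => x ⟨0, hn⟩ = true).card : ℝ) * 2 = 2 ^ n := by
      linarith
    exact_mod_cast h2
  have hcard0 : (univ.filter fun x : Fin n → Bool => x ⟨0, hn⟩ = false).card * 2 = 2 ^ n := by
    have h1 := card_filter_add_card_filter_not (s := (univ : Finset (Fin n → Bool)))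
      (fun x => x ⟨0, hn⟩ = true)
    rw [card_univ, Fintype.card_fun, Fintype.card_bool, Fintype.card_fin] at h1
    have h2 : (univ.filter fun x : Fin n → Bool => ¬ x ⟨0, hn⟩ = true) =
        univ.filter fun x : Fin n → Bool => x ⟨0, hn⟩ = false := by
      apply Finset.filter_congr
      intro x _
      simp
    rw [h2] at h1
    omega
  refine ⟨fun x => x ⟨0, hn⟩, ?_, ⟨?_, ?_⟩, ?_⟩
  rotate_left
  · show 2 ^ n ≤ 5 * (univ.filter fun x : Fin n → Bool => x ⟨0, hn⟩ = true).card
    omega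
  · show 2 * (univ.filter fun x : Fin n → Bool => x ⟨0, hn⟩ = true).card ≤ 2 ^ n
    omega
  rotate_left
  · refine ⟨[⟨{⟨0, hn⟩}, 0, true, fun x => !x ⟨0, hn⟩⟩], ?_, by simpa using hn, _,
      List.mem_singleton_self _, Nat.zero_le _, rfl, fun _ => rfl⟩
    refine IsCircuit.leaf [] _ _ IsCircuit.nil (by simp) ?_
    intro x y hxy
    rw [hxy ⟨0, hn⟩ (by simp)]
  · intro k L hk hL g hg hgt
    have hL1 : (1 : ℝ) ≤ L.length := by
      exact_mod_cast List.length_pos_of_mem hg
    have hp : (2 : ℝ) ^ α ≤ 2 := by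
      calc (2 : ℝ) ^ α ≤ 2 ^ (1 : ℝ) := Real.rpow_le_rpow_of_exponent_le (by norm_num) hα
        _ = 2 := Real.rpow_one 2
    have hp0 : (0 : ℝ) < 2 ^ α := by positivity
    have fin : ∀ Y : ℝ, 2 * Y ≤ 2 ^ n → (2 : ℝ) ^ α * Y ≤ L.length * 2 ^ n := by
      intro Y hY
      have h0 : (0 : ℝ) < 2 ^ n := by positivity
      rcases le_or_gt 0 Y with hY0 | hY0
      · calc (2 : ℝ) ^ α * Y ≤ 2 * Y := by gcongr
          _ ≤ 1 * 2 ^ n := by linarith
          _ ≤ _ := by gcongr
      · have : (2 : ℝ) ^ α * Y ≤ 0 := mul_nonpos_of_nonneg_of_nonpos hp0.le hY0.le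
        have h0 : (0 : ℝ) ≤ L.length * 2 ^ n := by positivity
        linarith
    constructor
    · intro _
      apply fin
      have a1 := fv_card_le fun x => g.f x = x ⟨0, hn⟩
      have a2 : ((univ.filter fun x : Fin n → Bool => x ⟨0, hn⟩ = false).card : ℝ) * 2 = 2 ^ n := by
        exact_mod_cast hcard0
      linarith
    · intro hgF
      apply fin
      have a1 : (univ.filter fun x => g.f x = true).card ≤
          (univ.filter fun x : Fin n → Bool => x ⟨0, hn⟩ = true).card := by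
        apply card_le_card
        intro x hx
        simp only [mem_filter, mem_univ, true_and] at hx ⊢
        exact hgF x hx
      have a2 : 2 * (univ.filter fun x => g.f x = true).card ≤ 2 ^ n := by omega
      exact_mod_cast a2

/-- a 3-CNF formula for the complement of a gate -/
private lemma fv_cnf (n C : ℕ) (F : (Fin n → Bool) → Bool)
    (L : List (Gate (Fin n))) (hL : IsCircuit 1 L) (hlen : L.length ≤ C * n) (g : Gate (Fin n))
    (hg : g ∈ L) (hdet : g.det = true) (hF : ∀ x, g.f x = !F x) :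
    ∃ (s : ℕ) (φ : CNF (Fin n ⊕ Fin s)), s ≤ C * n + 1 ∧ φ.length ≤ 3 * (C * n) + 4 ∧
      (∀ K ∈ φ, K.length ≤ 3) ∧
      ∀ x, (F x = true → ∃! y : Fin s → Bool, Sat φ (Sum.elim x y)) ∧
        (F x = false → ∀ y : Fin s → Bool, ¬ Sat φ (Sum.elim x y)) := by
  have hL' := IsCircuit.not L g hL hg hdet
  obtain ⟨φ, p1, p2, p3, p4⟩ := tseitin _ hL' _ List.mem_cons_self
  have e0 : (⟨g.vars, g.negs + 1, true, fun x => !g.f x⟩ :: L).length = L.length + 1 :=
    List.length_cons
  generalize (⟨g.vars, g.negs + 1, true, fun x => !g.f x⟩ :: L).length = s at e0 φ p1 p2 p3 p4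
  refine ⟨s, φ, by omega, by omega, p2, fun x => ⟨fun hx => ?_, fun hx => ?_⟩⟩
  · exact p3 x (by show (!g.f x) = true; rw [hF, hx]; rfl)
  · exact p4 x (by show (!g.f x) = false; rw [hF, hx]; rfl)

/-- [FinalV] -/
theorem thm_FinalV (h1 : St_ParV) (h2 : St_Outer) (h3 : St_M2) : St_FinalV := by
  obtain ⟨A₀, C₀, hD⟩ := h1
  obtain ⟨A, hA, hA1⟩ : ∃ A : ℕ, A₀ ≤ A ∧ 1 ≤ A := ⟨A₀ + 1, by omega, by omega⟩
  have hAR : (1 : ℝ) ≤ A := by exact_mod_cast hA1
  have key : ∀ t n : ℕ, 1 ≤ n → ∀ α : ℝ,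
      α = 1 / (10 * (A : ℝ)) * (n : ℝ) ^ (1 / ((t : ℝ) + 1)) / (t + 1) →
      ∃ F : (Fin n → Bool) → Bool, fv_Easy n t (C₀ + 1) F ∧ fv_Dens n F ∧ fv_HardF n t α F := by
    intro t n hn α hα
    have hnR : (1 : ℝ) ≤ n := by exact_mod_cast hn
    have ht0 : (0 : ℝ) < (t : ℝ) + 1 := by positivity
    obtain ⟨β, hβ⟩ : ∃ β : ℝ, β = (n : ℝ) ^ (1 / ((t : ℝ) + 1)) := ⟨_, rfl⟩
    have hβ1 : 1 ≤ β := by rw [hβ]; exact Real.one_le_rpow hnR (by positivity)
    have hβe : β ^ (t + 1) = n := by
      rw [hβ, ← Real.rpow_natCast, ← Real.rpow_mul (by positivity)]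
      push_cast
      rw [one_div, inv_mul_cancel₀ ht0.ne', Real.rpow_one]
    have hα' : α = β / (A * (t + 1)) / 10 := by
      rw [hα, ← hβ]
      field_simp
    rcases lt_or_ge (β / (A * ((t : ℝ) + 1))) 10 with hsmall | hbig
    · obtain ⟨F, ⟨L, q1, q2, q3⟩, f2, f3⟩ := fv_triv n t hn α (by rw [hα']; linarith)
      exact ⟨F, ⟨L, q1, q2.trans (Nat.mul_le_mul_right _ (by omega)), q3⟩, f2, f3⟩
    · obtain ⟨m, hm⟩ : ∃ m : ℕ, m = ⌊β / (A * ((t : ℝ) + 1))⌋₊ := ⟨_, rfl⟩
      have hm1 : (m : ℝ) ≤ β / (A * ((t : ℝ) + 1)) := by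
        rw [hm]; exact Nat.floor_le (by positivity)
      have hm2 : β / (A * ((t : ℝ) + 1)) < m + 1 := by rw [hm]; exact Nat.lt_floor_add_one _
      have hm10 : 10 ≤ m := by
        rw [hm]
        exact Nat.le_floor (by exact_mod_cast hbig)
      obtain ⟨r, hr⟩ : ∃ r, m = r + 4 := ⟨m - 4, by omega⟩
      obtain ⟨K, U, i1, i2, i3, i4, σ, h, hK0, hKr, hcard, hUp, hFair, hNP, hRS⟩ := hD t (r + 3)
      have hαr : α ≤ r := by
        rw [hα']
        have e2 : (m : ℝ) = r + 4 := by rw [hr]; push_cast; ring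
        have e3 : (10 : ℝ) ≤ m := by exact_mod_cast hm10
        linarith
      have hcn : Fintype.card (Bk K U) ≤ n := by
        have e1 : (A₀ * (t + 1) * (r + 3 + 1)) ^ (t + 1) ≤ n := by
          have e2 : ((A₀ * (t + 1) * (r + 3 + 1) : ℕ) : ℝ) ≤ β := by
            have e3 : ((r + 3 + 1 : ℕ) : ℝ) = m := by rw [hr]
            have e4 : ((A₀ : ℕ) : ℝ) ≤ A := by exact_mod_cast hA
            rw [Nat.cast_mul, e3, Nat.cast_mul]
            push_cast
            rw [le_div_iff₀ (by positivity)] at hm1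
            calc (A₀ : ℝ) * ((t : ℝ) + 1) * m ≤ A * (t + 1) * m := by gcongr
              _ = m * (A * (t + 1)) := by ring
              _ ≤ β := hm1
          have e5 : (((A₀ * (t + 1) * (r + 3 + 1)) ^ (t + 1) : ℕ) : ℝ) ≤ n := by
            rw [← hβe, Nat.cast_pow]
            exact pow_le_pow_left₀ (by positivity) e2 _
          exact_mod_cast e5
        exact hcard.trans e1
      obtain ⟨F, ⟨L, q1, q2, q3⟩, f2, f3⟩ := fv_main h2 h3 σ h t r C₀ hK0 hKr hUp hFair hNP hRS n
        hcn _ hαr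
      exact ⟨F, ⟨L, q1, q2.trans (Nat.mul_le_mul_right _ (by omega)), q3⟩, f2, f3⟩
  refine ⟨1 / (10 * (A : ℝ)), 3 * (C₀ + 1) + 4, by positivity, fun t n hn α hα => ?_⟩
  obtain ⟨F, ⟨L, q1, q2, g, hg, q3, q4, q5⟩, f2, f3⟩ := key t n hn α hα
  obtain ⟨s, φ, r1, r2, r3, r4⟩ := fv_cnf n (C₀ + 1) F L q1 q2 g hg q4 q5
  have e1 : (C₀ + 1) * n ≤ (3 * (C₀ + 1) + 4) * n := Nat.mul_le_mul_right _ (by omega)
  have e2 : 3 * ((C₀ + 1) * n) + 4 ≤ (3 * (C₀ + 1) + 4) * n := by nlinarith
  exact ⟨F, ⟨L, q1, q2.trans e1, g, hg, q3, q4, q5⟩,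
    ⟨s, φ, by nlinarith, r2.trans e2, r3, r4⟩, f2, f3⟩

end Pool.Agent.NHV
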