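import Pool.Agent.NHV.Defs
import Pool.Agent.NH.Base

/-!
# The negation hierarchy: module M2 (several blocks, with the same error)
-/

set_option autoImplicit false

namespace Pool.Agent.NHV

open Finset Pool.Agent.NH

section General

variable {W B : Type} [Fintype W] [DecidableEq W] [Fintype B] [DecidableEq B]

private lemma M_comm (F : (B → Bool) → (W → Bool) → ℝ) :
    Ex (fun z => Ex fun y => F y z) = Ex fun y => Ex fun z => F y z := by
  simp only [Ex]
  rw [← Finset.sum_div, ← Finset.sum_div, Finset.sum_comm]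
  ring

/-- the mean over the variables outside the block -/
private noncomputable def Ph (e : B → W) (Ψ G : (W → Bool) → ℝ) (y : B → Bool) : ℝ :=
  Ex fun z => G (Function.extend e y z) * Ψ z

private lemma M_In (e : B → W) (he : Function.Injective e) (H : (B → Bool) → ℝ)
    (Ψ G : (W → Bool) → ℝ) (hΨ : ∀ y z, Ψ (Function.extend e y z) = Ψ z) :
    Ex (fun x => G x * (H (fun u => x (e u)) * Ψ x)) = Ex fun y => H y * Ph e Ψ G y := by
  rw [Ex_extend e he, M_comm]
  apply Ex_congr
  intro y
  rw [Ph, ← Ex_mul_left]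
  apply Ex_congr
  intro z
  rw [hΨ]
  have : (fun u => Function.extend e y z (e u)) = y := by
    funext u
    rw [he.extend_apply]
  rw [this]
  ring

/-- the factor `H` can be replaced by a function between `0` and `ρ` -/
private def Good (e : B → W) (H ρ : (B → Bool) → ℝ) (Ψ G : (W → Bool) → ℝ) (γ : ℝ) : Prop :=
  ∃ r : (B → Bool) → ℝ, (∀ y, 0 ≤ r y ∧ r y ≤ ρ y) ∧
    |Ex (fun x => G x * (H (fun u => x (e u)) * Ψ x)) - Ex fun y => r y * Ph e Ψ G y| ≤ γ

private lemma M_good (e : B → W) (he : Function.Injective e) (H ρ : (B → Bool) → ℝ)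
    (Ψ G : (W → Bool) → ℝ) (hΨ : ∀ y z, Ψ (Function.extend e y z) = Ψ z)
    (hΨ1 : ∀ z, |Ψ z| ≤ 1) (γ : ℝ) (r : (B → Bool) → ℝ) (hr : ∀ y, 0 ≤ r y ∧ r y ≤ ρ y)
    (hz : ∀ z, |Ex fun y => G (Function.extend e y z) * (H y - r y)| ≤ γ) :
    Good e H ρ Ψ G γ := by
  refine ⟨r, hr, ?_⟩
  rw [M_In e he H Ψ G hΨ, ← Ex_sub]
  have h1 : (fun y => H y * Ph e Ψ G y - r y * Ph e Ψ G y) =
      fun y => Ex fun z => Ψ z * (G (Function.extend e y z) * (H y - r y)) := by
    funext y
    rw [← sub_mul, Ph, ← Ex_mul_left]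
    apply Ex_congr
    intro z
    ring
  rw [h1, ← M_comm (fun y z => Ψ z * (G (Function.extend e y z) * (H y - r y)))]
  apply abs_Ex_le_const
  intro z
  rw [Ex_mul_left, abs_mul]
  calc |Ψ z| * |Ex fun y => G (Function.extend e y z) * (H y - r y)|
      ≤ 1 * γ := mul_le_mul (hΨ1 z) (hz z) (abs_nonneg _) zero_le_one
    _ = γ := one_mul γ

/-- the step of the induction on the number of blocks -/
private lemma M_step (e : B → W) (H ρ : (B → Bool) → ℝ)
    (hρ : ∀ y, 0 ≤ ρ y) (hρ9 : Ex ρ ≤ 9 / 10) (Ψ : (W → Bool) → ℝ) (m : ℕ)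
    (F : Fin m → (W → Bool) → ℝ) (G : (W → Bool) → ℝ) (γ ω q : ℝ)
    (hω : 0 ≤ ω) (hq : 0 ≤ q) (hG : ∀ x, G x = ∑ j, F j x)
    (hgood : ∀ j, Good e H ρ Ψ (F j) γ)
    (hsel : ∀ τ : Fin m → Bool, ∀ y, -ω ≤ (∑ j, if τ j = true then Ph e Ψ (F j) y else 0) ∧
      (∑ j, if τ j = true then Ph e Ψ (F j) y else 0) ≤ q + ω) :
    -(9 / 10 * ω + m * γ) ≤ Ex (fun x => G x * (H (fun u => x (e u)) * Ψ x)) ∧
      Ex (fun x => G x * (H (fun u => x (e u)) * Ψ x)) ≤ 9 / 10 * (q + ω) + m * γ := by
  classical
  choose r hr hrI using hgood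
  have hI : Ex (fun x => G x * (H (fun u => x (e u)) * Ψ x)) =
      ∑ j, Ex (fun x => F j x * (H (fun u => x (e u)) * Ψ x)) := by
    rw [← Ex_sum]
    apply Ex_congr
    intro x
    rw [hG x, Finset.sum_mul]
  have hR : (∑ j, Ex fun y => r j y * Ph e Ψ (F j) y) =
      Ex fun y => ∑ j, r j y * Ph e Ψ (F j) y := by
    rw [← Ex_sum]
  have hdiff : |Ex (fun x => G x * (H (fun u => x (e u)) * Ψ x)) -
      Ex fun y => ∑ j, r j y * Ph e Ψ (F j) y| ≤ m * γ := by
    rw [hI, ← hR, ← Finset.sum_sub_distrib]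
    refine (Finset.abs_sum_le_sum_abs _ _).trans ?_
    refine (Finset.sum_le_sum fun j _ => hrI j).trans (le_of_eq ?_)
    rw [Finset.sum_const, Finset.card_univ, Fintype.card_fin, nsmul_eq_mul]
  have hlow : -(9 / 10 * ω) ≤ Ex fun y => ∑ j, r j y * Ph e Ψ (F j) y := by
    have h1 : (Ex fun y => ρ y * (-ω)) ≤ Ex fun y => ∑ j, r j y * Ph e Ψ (F j) y := by
      apply Ex_mono
      intro y
      have h2 := (hsel (fun j => decide (Ph e Ψ (F j) y < 0)) y).1
      refine (mul_le_mul_of_nonneg_left h2 (hρ y)).trans ?_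
      rw [Finset.mul_sum]
      apply Finset.sum_le_sum
      intro j _
      by_cases hj : Ph e Ψ (F j) y < 0
      · rw [if_pos (by simpa using hj)]
        nlinarith [(hr j y).2]
      · rw [if_neg (by simpa using hj), mul_zero]
        exact mul_nonneg (hr j y).1 (not_lt.1 hj)
    rw [Ex_mul_right] at h1
    have h3 : Ex ρ * ω ≤ 9 / 10 * ω := mul_le_mul_of_nonneg_right hρ9 hω
    linarith
  have hup : (Ex fun y => ∑ j, r j y * Ph e Ψ (F j) y) ≤ 9 / 10 * (q + ω) := by
    have h1 : (Ex fun y => ∑ j, r j y * Ph e Ψ (F j) y) ≤ Ex fun y => ρ y * (q + ω) := by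
      apply Ex_mono
      intro y
      have h2 := (hsel (fun j => decide (0 ≤ Ph e Ψ (F j) y)) y).2
      refine le_trans ?_ (mul_le_mul_of_nonneg_left h2 (hρ y))
      rw [Finset.mul_sum]
      apply Finset.sum_le_sum
      intro j _
      by_cases hj : 0 ≤ Ph e Ψ (F j) y
      · rw [if_pos (by simpa using hj)]
        exact mul_le_mul_of_nonneg_right (hr j y).2 hj
      · rw [if_neg (by simpa using hj), mul_zero]
        exact mul_nonpos_of_nonneg_of_nonpos (hr j y).1 (not_le.1 hj).le
    rw [Ex_mul_right] at h1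
    have h3 : Ex ρ * (q + ω) ≤ 9 / 10 * (q + ω) :=
      mul_le_mul_of_nonneg_right hρ9 (by linarith)
    linarith
  have hd := abs_le.1 hdiff
  constructor
  · linarith [hd.1]
  · linarith [hd.2]

end General

section Block

variable {K U W : Type} [Fintype K] [DecidableEq K] [Fintype U] [DecidableEq U] [Fintype W]
  [DecidableEq W]

private lemma M_kc_mono {w t s s' : ℕ} {f : (W → Bool) → Bool} {S : Finset W}
    (h : Kc w t s f S) (hs : s ≤ s') : Kc w t s' f S := by
  obtain ⟨L, h1, h2, h3, h4⟩ := h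
  exact ⟨L, h1, h2.trans hs, h3, h4⟩

/-- the variables of the block which are mapped into `S` -/
private def Xo (e : Bk K U → W) (S : Finset W) : Finset (Bk K U) := univ.filter fun u => e u ∈ S

private lemma M_top_inter (e : Bk K U → W) (S : Finset W) :
    (top K U ∩ Xo e S).card = (univ.filter fun v : Vx K => e (Sum.inl v) ∈ S).card := by
  rw [← Finset.card_image_of_injective (univ.filter fun v : Vx K => e (Sum.inl v) ∈ S)
    (Sum.inl_injective (β := Vx K × U))]
  congr 1
  ext u
  simp only [top, Xo, mem_inter, mem_image, mem_filter, mem_univ, true_and]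
  constructor
  · rintro ⟨⟨v, rfl⟩, h⟩
    exact ⟨v, h, rfl⟩
  · rintro ⟨v, h, rfl⟩
    exact ⟨⟨v, rfl⟩, h⟩

private lemma M_top_sdiff (e : Bk K U → W) (S : Finset W) :
    (top K U \ Xo e S).card = (univ.filter fun v : Vx K => e (Sum.inl v) ∉ S).card := by
  rw [← Finset.card_image_of_injective (univ.filter fun v : Vx K => e (Sum.inl v) ∉ S)
    (Sum.inl_injective (β := Vx K × U))]
  congr 1
  ext u
  simp only [top, Xo, mem_sdiff, mem_image, mem_filter, mem_univ, true_and]
  constructor
  · rintro ⟨⟨v, rfl⟩, h⟩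
    exact ⟨v, h, rfl⟩
  · rintro ⟨v, h, rfl⟩
    exact ⟨⟨v, rfl⟩, h⟩

private lemma M_top_card : (top K U).card = 2 * Fintype.card K := by
  rw [top, Finset.card_image_of_injective _ (Sum.inl_injective), Finset.card_univ,
    Fintype.card_sum]
  ring

/-- the image of the top bits -/
private def Bt (e : Bk K U → W) : Finset W := univ.image fun v : Vx K => e (Sum.inl v)

private lemma M_Bt_inj {e : Bk K U → W} (he : Function.Injective e) :
    Function.Injective fun v : Vx K => e (Sum.inl v) :=
  fun _ _ h => Sum.inl_injective (he h)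

private lemma M_Bt_card {e : Bk K U → W} (he : Function.Injective e) :
    (Bt e).card = 2 * Fintype.card K := by
  rw [Bt, Finset.card_image_of_injective _ (M_Bt_inj he), Finset.card_univ, Fintype.card_sum]
  ring

private lemma M_Bt_inter {e : Bk K U → W} (he : Function.Injective e) (S : Finset W) :
    (Bt e ∩ S).card = (univ.filter fun v : Vx K => e (Sum.inl v) ∈ S).card := by
  rw [← Finset.card_image_of_injective (univ.filter fun v : Vx K => e (Sum.inl v) ∈ S)
    (M_Bt_inj he)]
  congr 1
  ext u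
  simp only [Bt, mem_inter, mem_image, mem_filter, mem_univ, true_and]
  constructor
  · rintro ⟨⟨v, rfl⟩, h⟩
    exact ⟨v, h, rfl⟩
  · rintro ⟨v, h, rfl⟩
    exact ⟨⟨v, rfl⟩, h⟩

private lemma M_Bt_sdiff {e : Bk K U → W} (he : Function.Injective e) (S : Finset W) :
    (Bt e \ S).card = (univ.filter fun v : Vx K => e (Sum.inl v) ∉ S).card := by
  rw [← Finset.card_image_of_injective (univ.filter fun v : Vx K => e (Sum.inl v) ∉ S)
    (M_Bt_inj he)]
  congr 1
  ext u
  simp only [Bt, mem_sdiff, mem_image, mem_filter, mem_univ, true_and]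
  constructor
  · rintro ⟨⟨v, rfl⟩, h⟩
    exact ⟨v, h, rfl⟩
  · rintro ⟨v, h, rfl⟩
    exact ⟨⟨v, rfl⟩, h⟩

omit [Fintype K] [DecidableEq K] [Fintype U] [DecidableEq U] [Fintype W] [DecidableEq W] in
private lemma M_ext_congr {e : Bk K U → W} (he : Function.Injective e) {S : Finset W}
    {y y' : Bk K U → Bool} {z : W → Bool} (h : ∀ u, e u ∈ S → y u = y' u) :
    ∀ v ∈ S, Function.extend e y z v = Function.extend e y' z v := by
  intro v hv
  by_cases hu : ∃ u, e u = v
  · obtain ⟨u, rfl⟩ := hu
    rw [he.extend_apply, he.extend_apply, h u hv]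
  · rw [Function.extend_apply' _ _ _ hu, Function.extend_apply' _ _ _ hu]

private noncomputable def Hf (σ : Fin 3 → Equiv.Perm K) (h : (U → Bool) → Bool)
    (y : Bk K U → Bool) : ℝ := 2 * bv (up σ h y) - 1

private noncomputable def Rf (σ : Fin 3 → Equiv.Perm K) (h : (U → Bool) → Bool)
    (y : Bk K U → Bool) : ℝ := 1 / 2 + 1 / 2 * bv (up σ h y)

private lemma M_rect {σ : Fin 3 → Equiv.Perm K} {h : (U → Bool) → Bool} {η : ℝ}
    (hRS : RS1 (up σ h) (top K U) η) {e : Bk K U → W} (he : Function.Injective e)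
    {Ψ G : (W → Bool) → ℝ} (hΨ : ∀ y z, Ψ (Function.extend e y z) = Ψ z)
    (hΨ1 : ∀ z, |Ψ z| ≤ 1) {S₁ S₂ : Finset W} (hd : Disjoint S₁ S₂)
    {a b : (W → Bool) → ℝ} (ha : ∀ x, |a x| ≤ 1) (hb : ∀ x, |b x| ≤ 1) (hda : DepOn a S₁)
    (hdb : DepOn b S₂) (hG : ∀ x, G x = a x * b x)
    (h1 : (top K U).card ≤ 16 * (top K U ∩ Xo e S₁).card)
    (h2 : (top K U).card ≤ 16 * (top K U \ Xo e S₁).card) :
    Good e (Hf σ h) (Rf σ h) Ψ G η := by
  obtain ⟨P, E, hPE, hP, hab⟩ := hRS (Xo e S₁) h1 h2
  refine M_good e he _ _ Ψ G hΨ hΨ1 η P (fun y => ⟨(hP y).1, ?_⟩) ?_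
  · have := (hP y).2
    have h3 := bv_le_one (up σ h y)
    rw [Rf]
    linarith
  · intro z
    have h3 := hab (fun y => a (Function.extend e y z)) (fun y => b (Function.extend e y z))
      (fun y => ha _) (fun y => hb _) ?_ ?_
    · refine le_trans (le_of_eq ?_) h3
      congr 1
      apply Ex_congr
      intro y
      rw [hG, Hf, hPE y]
      ring
    · intro y y' hy
      exact hda _ _ (M_ext_congr he fun u hu => hy u (by simp [Xo, hu]))
    · intro y y' hy
      exact hdb _ _ (M_ext_congr he fun u hu => hy u (by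
        have : e u ∉ S₁ := fun h => Finset.disjoint_left.1 hd h hu
        simp [Xo, this]))

private lemma M_small (hSub : St_Sub) {σ : Fin 3 → Equiv.Perm K} {h : (U → Bool) → Bool}
    {w t s₀ : ℕ} {δ : ℝ} (hNP : NP w σ h t s₀ δ) {e : Bk K U → W} (he : Function.Injective e)
    {A g : (W → Bool) → Bool} {SA SG : Finset W} (hA : DepOn A SA) (hd : Disjoint SA SG)
    (hc : 2 * (univ.filter fun v : Vx K => e (Sum.inl v) ∈ SA).card ≤ Fintype.card K)
    (hg : (∀ x, g x = true) ∨ Kc w t s₀ g SG) (z : W → Bool) :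
    |Ex fun y => bv (A (Function.extend e y z)) * bv (g (Function.extend e y z)) *
      (Hf σ h y - 1 / 2)| ≤ 3 / 2 * δ := by
  have key : ∀ L : Finset (Fin 3), L.Nonempty →
      |Ex fun y => bv (A (Function.extend e y z)) * bv (g (Function.extend e y z)) *
        Sg σ L (vals h y)| ≤ δ := by
    intro L hL
    have h1 := hNP W e he (fun x => A (Function.extend e (fun u => x (e u)) z))
      (fun x => g (Function.extend e (fun u => x (e u)) z)) SA SG ?_ hd hc ?_ L hL
    · have h2 := Ex_inj e he (fun y => bv (A (Function.extend e y z)) *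
        bv (g (Function.extend e y z)) * Sg σ L (vals h y))
      rw [← h2]
      exact h1
    · intro x x' hx
      exact hA _ _ (M_ext_congr he fun u hu => hx _ hu)
    · rcases hg with hg | hg
      · exact Or.inl fun x => hg _
      · right
        refine (hSub W w t s₀ g SG hg).2 (fun x => Function.extend e (fun u => x (e u)) z) ?_
        intro v
        by_cases hu : ∃ u, e u = v
        · right
          intro x
          obtain ⟨u, rfl⟩ := hu
          rw [he.extend_apply]
        · left
          refine ⟨z v, fun x => ?_⟩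
          rw [Function.extend_apply' _ _ _ hu]
  have e1 : (fun y => bv (A (Function.extend e y z)) * bv (g (Function.extend e y z)) *
      (Hf σ h y - 1 / 2)) = fun y => -(1 / 2) * ((bv (A (Function.extend e y z)) *
        bv (g (Function.extend e y z)) * Sg σ {0, 1} (vals h y) +
        bv (A (Function.extend e y z)) * bv (g (Function.extend e y z)) *
          Sg σ {1, 2} (vals h y)) +
        bv (A (Function.extend e y z)) * bv (g (Function.extend e y z)) *
          Sg σ {0, 2} (vals h y)) := by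
    funext y
    rw [Hf, up, two_bv_nae]
    ring
  rw [e1, Ex_mul_left, Ex_add, Ex_add]
  have k1 := abs_le.1 (key {0, 1} ⟨0, by simp⟩)
  have k2 := abs_le.1 (key {1, 2} ⟨1, by simp⟩)
  have k3 := abs_le.1 (key {0, 2} ⟨0, by simp⟩)
  rw [abs_le]
  constructor <;> linarith [k1.1, k1.2, k2.1, k2.2, k3.1, k3.2]

private lemma M_term (hSub : St_Sub) {σ : Fin 3 → Equiv.Perm K} {h : (U → Bool) → Bool}
    {w t s s₀ : ℕ} {δ η : ℝ} (hδ : 0 ≤ δ) (hη : 0 ≤ η) (hs : s ≤ s₀) (hNP : NP w σ h t s₀ δ)
    (hRS : RS1 (up σ h) (top K U) η) {e : Bk K U → W} (he : Function.Injective e)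
    {Ψ : (W → Bool) → ℝ} (hΨ : ∀ y z, Ψ (Function.extend e y z) = Ψ z)
    (hΨ1 : ∀ z, |Ψ z| ≤ 1) {A T : (W → Bool) → Bool} {SA S : Finset W} (hA : DepOn A SA)
    (hd : Disjoint SA S)
    (hc : 16 * (univ.filter fun v : Vx K => e (Sum.inl v) ∈ SA).card < 2 * Fintype.card K)
    (hT : TermTy w t s (Bt e) S T) :
    Good e (Hf σ h) (Rf σ h) Ψ (fun x => bv (A x) * bv (T x)) (η + 3 * δ) := by
  have hρ : ∀ y : Bk K U → Bool, (0 : ℝ) ≤ 1 / 2 ∧ 1 / 2 ≤ Rf σ h y := by
    intro y
    have := bv_nonneg (up σ h y)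
    rw [Rf]
    constructor <;> linarith
  rcases hT with ⟨S', hS', h1, h2, p, q, hp, hq, rfl⟩ | ⟨S', hS', h1, q, g, hq, hg, rfl⟩ |
    ⟨S', hS', h1, hT⟩
  · have hgood : Good e (Hf σ h) (Rf σ h) Ψ (fun x => bv (A x) * bv (p x && q x)) η := by
      refine M_rect hRS he hΨ hΨ1 (S₁ := S') (S₂ := SA ∪ (S \ S'))
        (a := fun x => bv (p x)) (b := fun x => bv (A x) * bv (q x)) ?_ (fun x => abs_bv_le _) ?_
        (hp.comp bv) ?_ ?_ ?_ ?_
      · rw [Finset.disjoint_union_right]
        exact ⟨(hd.mono_right hS').symm, Finset.disjoint_sdiff⟩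
      · intro x
        show |bv (A x) * bv (q x)| ≤ 1
        rw [← bv_and]
        exact abs_bv_le _
      · exact ((hA.mono Finset.subset_union_left).comp₂ (hq.mono Finset.subset_union_right)
          fun a b => bv a * bv b)
      · intro x
        simp only [bv_and]
        ring
      · rw [M_top_inter, M_top_card, ← M_Bt_inter he, ← M_Bt_card he]
        exact h1
      · rw [M_top_sdiff, M_top_card, ← M_Bt_sdiff he, ← M_Bt_card he]
        exact h2
    obtain ⟨r, hr, hr2⟩ := hgood
    exact ⟨r, hr, hr2.trans (by linarith)⟩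
  · refine M_good e he _ _ Ψ _ hΨ hΨ1 _ (fun _ => 1 / 2) (fun y => hρ y) ?_
    intro z
    have hA' : DepOn (fun x => A x && q x) (SA ∪ (S \ S')) :=
      (hA.mono Finset.subset_union_left).comp₂ (hq.mono Finset.subset_union_right)
        fun a b => a && b
    have hd' : Disjoint (SA ∪ (S \ S')) S' := by
      rw [Finset.disjoint_union_left]
      exact ⟨hd.mono_right hS', Finset.sdiff_disjoint⟩
    have hc' : 2 * (univ.filter fun v : Vx K => e (Sum.inl v) ∈ SA ∪ (S \ S')).card ≤
        Fintype.card K := by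
      have h3 : (univ.filter fun v : Vx K => e (Sum.inl v) ∈ SA ∪ (S \ S')).card ≤
          (univ.filter fun v : Vx K => e (Sum.inl v) ∉ S').card := by
        apply Finset.card_le_card
        intro v hv
        simp only [mem_filter, mem_univ, true_and] at hv ⊢
        exact fun hv' => Finset.disjoint_left.1 hd' hv hv'
      rw [M_Bt_sdiff he, M_Bt_card he] at h1
      omega
    have k1 := M_small hSub hNP he hA' hd' hc' (Or.inr (M_kc_mono hg hs)) z
    have k2 := M_small hSub hNP he (g := fun _ => true) hA' hd' hc' (Or.inl fun _ => rfl) z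
    have e1 : (fun y => bv (A (Function.extend e y z)) *
        bv (q (Function.extend e y z) && !g (Function.extend e y z)) * (Hf σ h y - 1 / 2)) =
        fun y => bv (A (Function.extend e y z) && q (Function.extend e y z)) * bv true *
          (Hf σ h y - 1 / 2) -
          bv (A (Function.extend e y z) && q (Function.extend e y z)) *
            bv (g (Function.extend e y z)) * (Hf σ h y - 1 / 2) := by
      funext y
      simp only [bv_and, bv_not, bv_true]
      ring
    rw [e1, Ex_sub]
    have k1' := abs_le.1 k1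
    have k2' := abs_le.1 k2
    rw [abs_le]
    constructor <;> linarith [k1'.1, k1'.2, k2'.1, k2'.2]
  · refine M_good e he _ _ Ψ _ hΨ hΨ1 _ (fun _ => 1 / 2) (fun y => hρ y) ?_
    intro z
    have hA' : DepOn (fun x => A x && T x) (SA ∪ S') :=
      (hA.mono Finset.subset_union_left).comp₂ (hT.mono Finset.subset_union_right)
        fun a b => a && b
    have hc' : 2 * (univ.filter fun v : Vx K => e (Sum.inl v) ∈ SA ∪ S').card ≤
        Fintype.card K := by
      have h3 : (univ.filter fun v : Vx K => e (Sum.inl v) ∈ SA ∪ S').card ≤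
          (univ.filter fun v : Vx K => e (Sum.inl v) ∈ SA).card +
          (univ.filter fun v : Vx K => e (Sum.inl v) ∈ S').card := by
        refine le_trans (Finset.card_le_card ?_) (card_union_le _ _)
        intro v hv
        simp only [mem_filter, mem_univ, true_and, mem_union] at hv ⊢
        exact hv
      rw [M_Bt_inter he, M_Bt_card he] at h1
      omega
    have k2 := M_small hSub hNP he (g := fun _ => true) (SG := ∅) hA'
      (Finset.disjoint_empty_right _) hc' (Or.inl fun _ => rfl) z
    have e1 : (fun y => bv (A (Function.extend e y z)) *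
        bv (T (Function.extend e y z)) * (Hf σ h y - 1 / 2)) =
        fun y => bv (A (Function.extend e y z) && T (Function.extend e y z)) * bv true *
          (Hf σ h y - 1 / 2) := by
      funext y
      simp only [bv_and, bv_true]
      ring
    rw [e1]
    exact k2.trans (by linarith)

end Block

private lemma M_claim (hDSub : St_DSub) (hDec : St_DDec) (hSub : St_Sub) {K : Type} [Fintype K]
    [DecidableEq K]
    (σ : Fin 3 → Equiv.Perm K) (w : ℕ) (hK : 0 < Fintype.card K) (hw : 4 * w ≤ Fintype.card K)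
    {U : Type} [Fintype U] [DecidableEq U] (h : (U → Bool) → Bool) (δ η : ℝ) (t s : ℕ)
    (hδ : 0 ≤ δ) (hη : 0 ≤ η) (hs : 1 ≤ s) (hNP : NP w σ h t s δ)
    (hRS : RS1 (up σ h) (top K U) η)
    (hmean : Ex (fun x => bv (up σ h x)) ≤ 4 / 5) : ∀ k : ℕ,
    ∀ (W : Type) [Fintype W] [DecidableEq W] (ι : Type) [DecidableEq ι] (e : ι × Bk K U → W),
    Function.Injective e → ∀ (Q : Finset ι), Q.card = k →
    ∀ (A g : (W → Bool) → Bool) (SA SG : Finset W), DepOn A SA → Disjoint SA SG →
    (∀ i ∈ Q, 16 * ((top K U).filter fun u => e (i, u) ∈ SA).card ≤ 15 * (top K U).card) →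
    Dc w t s s g SG →
    -(20 * s * (η + 3 * δ)) ≤ Ex (fun x => bv (A x) * bv (g x) *
        ∏ i ∈ Q, (2 * bv (up σ h fun u => x (e (i, u))) - 1)) ∧
      Ex (fun x => bv (A x) * bv (g x) *
        ∏ i ∈ Q, (2 * bv (up σ h fun u => x (e (i, u))) - 1)) ≤
        (9 / 10) ^ k + 20 * s * (η + 3 * δ) := by
  have hγ : 0 ≤ η + 3 * δ := by linarith
  have hω : 0 ≤ 20 * (s : ℝ) * (η + 3 * δ) := by positivity
  intro k
  induction k with
  | zero =>
    intro W _ _ ι _ e he Q hQ A g SA SG hA hd hcard hg
    rw [Finset.card_eq_zero] at hQ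
    subst hQ
    simp only [Finset.prod_empty, mul_one, pow_zero]
    constructor
    · exact le_trans (by linarith) (Ex_nonneg fun x => mul_nonneg (bv_nonneg _) (bv_nonneg _))
    · exact Ex_le_const fun x => by
        rw [← bv_and]
        exact (bv_le_one _).trans (by linarith)
  | succ k ih =>
    intro W _ _ ι _ e he Q hQ A g SA SG hA hd hcard hg
    obtain ⟨i₀, Q', hi₀, rfl, hQ'⟩ := Finset.card_eq_succ.1 hQ
    set e₁ : Bk K U → W := fun u => e (i₀, u) with he₁
    have hinj : Function.Injective e₁ := fun u v huv => (Prod.mk.inj (he huv)).2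
    set Ψ : (W → Bool) → ℝ := fun x =>
      ∏ i ∈ Q', (2 * bv (up σ h fun u => x (e (i, u))) - 1) with hΨdef
    have hout : ∀ i ∈ Q', ∀ u, ∀ (y : Bk K U → Bool) (z : W → Bool),
        Function.extend e₁ y z (e (i, u)) = z (e (i, u)) := by
      intro i hi u y z
      apply Function.extend_apply'
      rintro ⟨u', hu'⟩
      have := (Prod.mk.inj (he hu')).1
      exact hi₀ (this ▸ hi)
    have hΨ : ∀ y z, Ψ (Function.extend e₁ y z) = Ψ z := by
      intro y z
      apply Finset.prod_congr rfl
      intro i hi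
      have : (fun u => Function.extend e₁ y z (e (i, u))) = fun u => z (e (i, u)) :=
        funext fun u => hout i hi u y z
      rw [this]
    have hΨ1 : ∀ z, |Ψ z| ≤ 1 := by
      intro z
      simp only [hΨdef]
      rw [Finset.abs_prod]
      exact Finset.prod_le_one (fun _ _ => abs_nonneg _) fun _ _ => abs_two_bv _
    have hgoal : ∀ x, bv (A x) * bv (g x) *
        ∏ i ∈ insert i₀ Q', (2 * bv (up σ h fun u => x (e (i, u))) - 1) =
        bv (A x) * bv (g x) * (Hf σ h (fun u => x (e₁ u)) * Ψ x) := by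
      intro x
      rw [Finset.prod_insert hi₀]
      rfl
    rw [Ex_congr hgoal]
    -- the terms
    obtain ⟨m, T, hm, hTgood, hTsum, hTsel⟩ : ∃ (m : ℕ) (T : Fin m → (W → Bool) → Bool),
        m ≤ 2 * s ∧
        (∀ j, Good e₁ (Hf σ h) (Rf σ h) Ψ (fun x => bv (A x) * bv (T j x)) (η + 3 * δ)) ∧
        (∀ x, bv (g x) = ∑ j, bv (T j x)) ∧
        ∀ τ : Fin m → Bool, ∃ g' : (W → Bool) → Bool, Dc w t s s g' SG ∧
          ∀ x, bv (g' x) = ∑ j, if τ j = true then bv (T j x) else 0 := by
      have hfil : ((top K U).filter fun u => e (i₀, u) ∈ SA).card =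
          (univ.filter fun v : Vx K => e₁ (Sum.inl v) ∈ SA).card := by
        rw [← M_top_inter e₁ SA]
        congr 1
        ext u
        simp only [Xo, mem_filter, mem_inter, mem_univ, true_and, he₁]
      have hc15 := hcard i₀ (Finset.mem_insert_self _ _)
      rw [hfil, M_top_card] at hc15
      by_cases hc1 : 16 * (univ.filter fun v : Vx K => e₁ (Sum.inl v) ∈ SA).card <
          2 * Fintype.card K
      · obtain ⟨m, T, h1, h2, h3, h4⟩ := hDec W w t s s g SG (Bt e₁)
          (by rw [M_Bt_card hinj]; omega) (by rw [M_Bt_card hinj]; omega) hg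
        exact ⟨m, T, h1, fun j =>
          M_term hSub hδ hη le_rfl hNP hRS hinj hΨ hΨ1 hA hd hc1 (h2 j), h3, h4⟩
      · have hgood : Good e₁ (Hf σ h) (Rf σ h) Ψ (fun x => bv (A x) * bv (g x)) η := by
          refine M_rect hRS hinj hΨ hΨ1 (S₁ := SA) (S₂ := SG)
            (a := fun x => bv (A x)) (b := fun x => bv (g x)) hd (fun x => abs_bv_le _)
            (fun x => abs_bv_le _) (hA.comp bv)
            (((hDSub W w t s).2.2 s g SG hg).1.comp bv) (fun x => rfl) ?_ ?_
          · rw [M_top_inter, M_top_card]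
            omega
          · rw [M_top_sdiff, M_top_card]
            have h1 : (univ.filter fun v : Vx K => e₁ (Sum.inl v) ∈ SA).card +
                (univ.filter fun v : Vx K => e₁ (Sum.inl v) ∉ SA).card =
                2 * Fintype.card K := by
              rw [Finset.card_filter_add_card_filter_not, Finset.card_univ, Fintype.card_sum]
              ring
            omega
        refine ⟨1, fun _ => g, by omega, ?_, ?_, ?_⟩
        · intro j
          obtain ⟨r, hr, hr2⟩ := hgood
          exact ⟨r, hr, hr2.trans (by linarith)⟩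
        · intro x
          simp
        · intro τ
          by_cases hτ : τ 0 = true
          · exact ⟨g, hg, fun x => by simp [hτ]⟩
          · exact ⟨fun _ => false, (hDSub W w t s).2.1 s SG hs, fun x => by
              simp [hτ, bv_false]⟩
    -- the induction hypothesis for restrictions
    have hIH : ∀ T : (W → Bool) → Bool, Dc w t s s T SG → ∀ y,
        -(20 * s * (η + 3 * δ)) ≤
          Ph e₁ Ψ (fun x => bv (A x) * bv (T x)) y ∧
        Ph e₁ Ψ (fun x => bv (A x) * bv (T x)) y ≤
          (9 / 10) ^ k + 20 * s * (η + 3 * δ) := by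
      intro T hT y
      refine ih W ι e he Q' hQ' (fun z => A (Function.extend e₁ y z))
        (fun z => T (Function.extend e₁ y z)) SA SG ?_ hd
        (fun i hi => hcard i (Finset.mem_insert_of_mem hi)) ?_
      · intro z z' hz
        apply hA
        intro v hv
        by_cases hu : ∃ u, e₁ u = v
        · obtain ⟨u, rfl⟩ := hu
          rw [hinj.extend_apply, hinj.extend_apply]
        · rw [Function.extend_apply' _ _ _ hu, Function.extend_apply' _ _ _ hu]
          exact hz v hv
      · refine ((hDSub W w t s).2.2 s T SG hT).2 (fun z => Function.extend e₁ y z) ?_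
        intro v
        by_cases hu : ∃ u, e₁ u = v
        · left
          obtain ⟨u, rfl⟩ := hu
          exact ⟨y u, fun z => hinj.extend_apply _ _ _⟩
        · right
          intro z
          exact Function.extend_apply' _ _ _ hu
    have hρ : ∀ y : Bk K U → Bool, 0 ≤ Rf σ h y := by
      intro y
      have h1 := bv_nonneg (up σ h y)
      rw [Rf]
      linarith
    have hρ9 : Ex (Rf σ h) ≤ 9 / 10 := by
      have : Ex (Rf σ h) = 1 / 2 + 1 / 2 * Ex fun x => bv (up σ h x) := by
        rw [← Ex_mul_left, ← Ex_const (V := Bk K U) (1 / 2 : ℝ), ← Ex_add]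
        simp only [Ex_const]
        rfl
      rw [this]
      linarith
    have hstep := M_step e₁ (Hf σ h) (Rf σ h) hρ hρ9 Ψ m
      (fun j x => bv (A x) * bv (T j x)) (fun x => bv (A x) * bv (g x)) (η + 3 * δ)
      (20 * s * (η + 3 * δ)) ((9 / 10) ^ k) hω (by positivity)
      (fun x => by rw [hTsum x, Finset.mul_sum]) hTgood ?_
    · have hm' : (m : ℝ) * (η + 3 * δ) ≤ 2 * s * (η + 3 * δ) := by
        apply mul_le_mul_of_nonneg_right _ hγ
        exact_mod_cast hm
      constructor
      · refine le_trans ?_ hstep.1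
        linarith
      · refine hstep.2.trans ?_
        have e9 : (9 / 10 : ℝ) ^ (k + 1) = 9 / 10 * (9 / 10) ^ k := by rw [pow_succ]; ring
        rw [e9]
        linarith
    · intro τ y
      obtain ⟨g', hg', hsum⟩ := hTsel τ
      have h1 : (∑ j, if τ j = true then Ph e₁ Ψ (fun x => bv (A x) * bv (T j x)) y else 0) =
          Ph e₁ Ψ (fun x => bv (A x) * bv (g' x)) y := by
        have h2 : ∀ j, (if τ j = true then Ph e₁ Ψ (fun x => bv (A x) * bv (T j x)) y else 0) =
            Ex fun z => if τ j = true then bv (A (Function.extend e₁ y z)) *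
              bv (T j (Function.extend e₁ y z)) * Ψ z else 0 := by
          intro j
          by_cases hj : τ j = true
          · simp only [hj, if_true]
            rfl
          · simp only [hj, if_false]
            exact (Ex_const _).symm
        rw [Finset.sum_congr rfl fun j _ => h2 j, ← Ex_sum]
        apply Ex_congr
        intro z
        show (∑ j, if τ j = true then bv (A (Function.extend e₁ y z)) *
          bv (T j (Function.extend e₁ y z)) * Ψ z else 0) =
          bv (A (Function.extend e₁ y z)) * bv (g' (Function.extend e₁ y z)) * Ψ z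
        rw [hsum, Finset.mul_sum, Finset.sum_mul]
        apply Finset.sum_congr rfl
        intro j _
        by_cases hj : τ j = true
        · rw [if_pos hj, if_pos hj]
        · rw [if_neg hj, if_neg hj, mul_zero, zero_mul]
      rw [h1]
      exact hIH g' hg' y

theorem thm_M2 (hDSub : St_DSub) (hDec : St_DDec) (hSub : St_Sub) : St_M2 := by
  intro K _ _ σ w hK hw U _ _ h δ η t s hδ hη hs hNP hRS hmean J W _ _ ι _ e he Q hQ A g
    SA SG hA hd hcard hg
  exact M_claim hDSub hDec hSub σ w hK hw h δ η t s hδ hη hs hNP hRS hmean Q.card W ι e he Q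
    rfl A g SA SG hA hd hcard ((hDSub W w t s).1 g SG hg)

end Pool.Agent.NHV
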