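import Pool.Agent.NHV.Defs
import Pool.Agent.NH.ParL

/-!
# The negation hierarchy with the exponent `1 / (t + 1)`: [ParV]
-/

set_option autoImplicit false

namespace Pool.Agent.NHV

open Finset Pool.Agent.NH

private lemma Pav_910 (k n : ℕ) (h : 7 * n ≤ k) : (9 / 10 : ℝ) ^ k ≤ (1 / 2) ^ n := by
  calc (9 / 10 : ℝ) ^ k ≤ (9 / 10) ^ (7 * n) :=
        pow_le_pow_of_le_one (by norm_num) (by norm_num) h
    _ = ((9 / 10) ^ 7) ^ n := by rw [pow_mul]
    _ ≤ (1 / 2) ^ n := pow_le_pow_left₀ (by norm_num) (by norm_num) _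

private lemma Pav_1920 (k n : ℕ) (h : 14 * n ≤ k) : (19 / 20 : ℝ) ^ k ≤ (1 / 2) ^ n := by
  calc (19 / 20 : ℝ) ^ k ≤ (19 / 20) ^ (14 * n) :=
        pow_le_pow_of_le_one (by norm_num) (by norm_num) h
    _ = ((19 / 20) ^ 14) ^ n := by rw [pow_mul]
    _ ≤ (1 / 2) ^ n := pow_le_pow_left₀ (by norm_num) (by norm_num) _

private lemma Pav_rs1 {U : Type} [Fintype U] [DecidableEq U] {h : (U → Bool) → Bool}
    {T : Finset U} {η η' : ℝ} (H : RS1 h T η) (hη : η ≤ η') : RS1 h T η' := by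
  intro X h1 h2
  obtain ⟨P, E, hPE, hP, hab⟩ := H X h1 h2
  exact ⟨P, E, hPE, hP, fun a b ha hb hda hdb => (hab a b ha hb hda hdb).trans hη⟩

private lemma Pav_np {K U : Type} [Fintype K] [DecidableEq K] [Fintype U] [DecidableEq U] {w : ℕ}
    {σ : Fin 3 → Equiv.Perm K} {h : (U → Bool) → Bool} {t s : ℕ} {δ δ' : ℝ}
    (H : NP w σ h t s δ) (hδ : δ ≤ δ') : NP w σ h t s δ' := by
  intro W _ _ e he A g SA SG hA hd hc hg L hL
  exact (H W e he A g SA SG hA hd hc hg L hL).trans hδ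

private lemma Pav_upp {U : Type} [DecidableEq U] {h : (U → Bool) → Bool} {a b s s' : ℕ}
    (H : UpP h a b s) (hs : s ≤ s') : UpP h a b s' := by
  obtain ⟨L, h1, h2, h3, h4, h5⟩ := H
  exact ⟨L, h1, h2.trans hs, h3, h4, h5⟩

private lemma Pav_card {K U : Type} [Fintype K] [DecidableEq K] [Fintype U] [DecidableEq U] :
    Fintype.card (Bk K U) = 2 * Fintype.card K + 2 * Fintype.card K * Fintype.card U := by
  rw [Fintype.card_sum, Fintype.card_prod, Fintype.card_sum]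
  ring

private lemma Pav_mean {U : Type} [Fintype U] [DecidableEq U] {h : (U → Bool) → Bool}
    {T : Finset U} (H : Fair h T) : Ex (fun x => bv (h x)) ≤ 4 / 5 := by
  have h1 := (H ∅ (by simp) (fun _ => false)).2
  refine le_trans (le_of_eq (Ex_congr fun x => ?_)) h1
  congr 2

private lemma Pav_base : UpP (U := Empty) (fun _ => false) 0 0 2 := by
  refine ⟨[⟨fun _ => true, ∅, 0⟩, ⟨fun _ => false, ∅, 0⟩], ?_, le_rfl, ?_, ?_, ?_⟩
  · refine Prog.cons (Prog.cons Prog.nil ?_) ?_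
    · exact Or.inl ⟨∅, le_rfl, by simp, fun _ _ _ => rfl⟩
    · exact Or.inl ⟨∅, le_rfl, by simp, fun _ _ _ => rfl⟩
  · intro g hg
    simp only [List.mem_cons, List.not_mem_nil, or_false] at hg
    rcases hg with rfl | rfl <;> exact le_rfl
  · exact ⟨⟨fun _ => false, ∅, 0⟩, by simp, rfl, le_rfl⟩
  · exact ⟨⟨fun _ => true, ∅, 0⟩, by simp, rfl⟩

/-- a graph for the parameter `a` -/
private lemma Pav_graph (hHex : St_Lin) : ∃ C : ℕ, ∀ a : ℕ, ∃ (K : Type) (_ : Fintype K)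
    (_ : DecidableEq K) (σ : Fin 3 → Equiv.Perm K), 1400 * (a + 1) ≤ Fintype.card K ∧
    Fintype.card K ≤ C * (a + 1) ∧ Simple σ ∧ Expd σ (1400 * (a + 1)) := by
  obtain ⟨C, hC⟩ := hHex
  refine ⟨C * 1401, fun ρ => ?_⟩
  obtain ⟨K, i1, i2, σ, h1, h2, h3, h4⟩ := hC (1400 * (ρ + 1))
  refine ⟨K, i1, i2, σ, h1, h2.trans ?_, h3, h4⟩
  rw [mul_assoc]
  exact Nat.mul_le_mul_left _ (by omega)

private def PV (C t : ℕ) : Prop :=
  ∀ r a : ℕ, r ≤ a → ∃ (K U : Type) (_ : Fintype K) (_ : DecidableEq K) (_ : Fintype U)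
    (_ : DecidableEq U) (σ : Fin 3 → Equiv.Perm K) (h : (U → Bool) → Bool),
    0 < Fintype.card K ∧ 4 * r ≤ Fintype.card K ∧
    Fintype.card (Bk K U) ≤ ∏ j ∈ range (t + 1), 4 * C * (a + j * (r + 8) + 1) ∧
    UpP (up σ h) t (t + 1) (200 * Fintype.card (Bk K U)) ∧
    Fair (up σ h) (top K U) ∧
    NP r σ h t (2 ^ r) ((1 / 2) ^ a) ∧
    RS1 (up σ h) (top K U) ((1 / 2) ^ a)

private lemma Pav_zero (C : ℕ) (hC : ∀ a : ℕ, ∃ (K : Type) (_ : Fintype K)
    (_ : DecidableEq K) (σ : Fin 3 → Equiv.Perm K), 1400 * (a + 1) ≤ Fintype.card K ∧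
    Fintype.card K ≤ C * (a + 1) ∧ Simple σ ∧ Expd σ (1400 * (a + 1)))
    (hBlk : St_Blk) (hN1 : St_N1) (hUp : St_Up) : PV C 0 := by
  intro r a hra
  obtain ⟨K, i1, i2, σ, h1, h2, h3, h4⟩ := hC a
  have hcard : Fintype.card (Bk K Empty) = 2 * Fintype.card K := by
    rw [Pav_card, Fintype.card_empty]
    ring
  have hb := hBlk K σ h3 (by omega) _ h4 Empty (fun _ => false)
  refine ⟨K, Empty, i1, i2, inferInstance, inferInstance, σ, fun _ => false, by omega, by omega,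
    ?_, ?_, hb.1, ?_, ?_⟩
  · rw [hcard, Finset.prod_range_one]
    have e : 4 * C * (a + 0 * (r + 8) + 1) = 4 * (C * (a + 1)) := by ring
    rw [e]
    omega
  · refine Pav_upp (hUp K σ Empty (fun _ => false) 0 0 2 le_rfl Pav_base) ?_
    rw [hcard]
    omega
  · refine Pav_np (hN1 K σ h3 Empty (fun _ => false) r (2 ^ r)) (Pav_910 _ _ ?_)
    omega
  · exact Pav_rs1 hb.2 (Pav_910 _ _ (by omega))

private lemma Pav_om (a r : ℕ) :
    20 * (((2 : ℕ) ^ r : ℕ) : ℝ) * ((1 / 2 : ℝ) ^ (a + (r + 8)) + 3 * (1 / 2) ^ (a + (r + 8))) ≤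
      (1 / 2) ^ (a + 1) := by
  have e : (((2 : ℕ) ^ r : ℕ) : ℝ) * (1 / 2 : ℝ) ^ r = 1 := by
    push_cast
    rw [← mul_pow]
    norm_num
  have e2 : 20 * (((2 : ℕ) ^ r : ℕ) : ℝ) *
      ((1 / 2 : ℝ) ^ (a + (r + 8)) + 3 * (1 / 2) ^ (a + (r + 8))) =
      (80 / 256) * (1 / 2) ^ a * ((((2 : ℕ) ^ r : ℕ) : ℝ) * (1 / 2 : ℝ) ^ r) := by
    rw [pow_add, pow_add]
    ring
  rw [e2, e, pow_succ]
  have : (0 : ℝ) ≤ (1 / 2) ^ a := by positivity
  linarith

private lemma Pav_succ (C : ℕ) (hC : ∀ a : ℕ, ∃ (K : Type) (_ : Fintype K)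
    (_ : DecidableEq K) (σ : Fin 3 → Equiv.Perm K), 1400 * (a + 1) ≤ Fintype.card K ∧
    Fintype.card K ≤ C * (a + 1) ∧ Simple σ ∧ Expd σ (1400 * (a + 1)))
    (hBlk : St_Blk) (hN : St_N) (hM : St_M2) (hUp : St_Up) (t : ℕ) (ih : PV C t) :
    PV C (t + 1) := by
  intro r a hra
  set J : ℕ := 14 * (a + 1) with hJ
  obtain ⟨K, U, i1, i2, i3, i4, σ, h, hK0, hK4, hcard, hup, hfair, hNP, hRS⟩ :=
    ih r (a + (r + 8)) (by omega)
  obtain ⟨K₁, j1, j2, σ₁, g1, g2, g3, g4⟩ := hC a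
  have hmean := Pav_mean hfair
  have hMP := hM K σ r hK0 hK4 U h ((1 / 2) ^ (a + (r + 8))) ((1 / 2) ^ (a + (r + 8))) t
    (2 ^ r) (by positivity) (by positivity) Nat.one_le_two_pow hNP hRS hmean J
  have hT : (top K U).Nonempty := by
    have : 0 < Fintype.card (Vx K) := by
      rw [Fintype.card_sum]
      omega
    obtain ⟨v⟩ := Fintype.card_pos_iff.1 this
    exact ⟨Sum.inl v, Finset.mem_image_of_mem _ (Finset.mem_univ _)⟩
  have hNP' := hN (Bk K U) (up σ h) (top K U) _ r t (2 ^ r) J hT (by positivity)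
    Nat.one_le_two_pow hMP hfair K₁ σ₁ g3 (by omega)
  have hb := hBlk K₁ σ₁ g3 (by omega) _ g4 (Bk K U) (up σ h)
  have hcardU : 1 ≤ Fintype.card (Bk K U) := by
    rw [Pav_card]
    omega
  have hcard' : Fintype.card (Bk K₁ (Bk K U)) =
      2 * Fintype.card K₁ + 2 * Fintype.card K₁ * Fintype.card (Bk K U) := Pav_card
  refine ⟨K₁, Bk K U, j1, j2, inferInstance, inferInstance, σ₁, up σ h, by omega, by omega, ?_, ?_,
    hb.1, ?_, ?_⟩
  · have h1 : Fintype.card (Bk K₁ (Bk K U)) ≤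
        Fintype.card (Bk K U) * (4 * C * (a + 1)) := by
      rw [hcard']
      calc 2 * Fintype.card K₁ + 2 * Fintype.card K₁ * Fintype.card (Bk K U)
          ≤ 2 * Fintype.card K₁ * Fintype.card (Bk K U) +
            2 * Fintype.card K₁ * Fintype.card (Bk K U) :=
            Nat.add_le_add_right (Nat.le_mul_of_pos_right _ hcardU) _
        _ = 4 * Fintype.card K₁ * Fintype.card (Bk K U) := by ring
        _ ≤ 4 * (C * (a + 1)) * Fintype.card (Bk K U) := by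
            apply Nat.mul_le_mul_right
            exact Nat.mul_le_mul_left _ g2
        _ = _ := by ring
    rw [Finset.prod_range_succ']
    refine h1.trans ?_
    have e : 4 * C * (a + 0 * (r + 8) + 1) = 4 * C * (a + 1) := by ring
    rw [e]
    apply Nat.mul_le_mul_right
    refine hcard.trans (le_of_eq (Finset.prod_congr rfl fun j _ => ?_))
    ring
  · refine Pav_upp (hUp K₁ σ₁ (Bk K U) (up σ h) t (t + 1) _ (by omega) hup) ?_
    rw [hcard']
    have h3 : 200 * (2 * Fintype.card K₁ + 2 * Fintype.card K₁ * Fintype.card (Bk K U)) =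
        2 * Fintype.card K₁ * (200 * Fintype.card (Bk K U)) + 400 * Fintype.card K₁ := by ring
    rw [h3]
    omega
  · refine Pav_np hNP' ?_
    have h1 := Pav_1920 J (a + 1) (by omega)
    have h2 := Pav_om a r
    have h3 : (1 / 2 : ℝ) ^ a = (1 / 2) ^ (a + 1) + (1 / 2) ^ (a + 1) := by
      rw [pow_succ (1 / 2 : ℝ) a]
      ring
    rw [h3]
    exact add_le_add h1 h2
  · exact Pav_rs1 hb.2 (Pav_910 _ _ (by omega))

/-- [ParV] -/
theorem thm_ParV (hLin : St_Lin) (hBlk : St_Blk) (hN1 : St_N1) (hN : St_N) (hM : St_M2)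
    (hUp : St_Up) : St_ParV := by
  obtain ⟨C, hC⟩ := Pav_graph hLin
  have key : ∀ t, PV C t := by
    intro t
    induction t with
    | zero => exact Pav_zero C hC hBlk hN1 hUp
    | succ t ih => exact Pav_succ C hC hBlk hN hM hUp t ih
  refine ⟨4 * C * 13, 200, fun t r => ?_⟩
  obtain ⟨K, U, i1, i2, i3, i4, σ, h, h0, h4, hcard, hup, hfair, hNP, hRS⟩ :=
    key t r (4 * r + 4) (by omega)
  refine ⟨K, U, i1, i2, i3, i4, σ, h, h0, h4, hcard.trans ?_, hup, hfair, hNP, hRS⟩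
  calc ∏ j ∈ range (t + 1), 4 * C * (4 * r + 4 + j * (r + 8) + 1)
      ≤ ∏ _j ∈ range (t + 1), 4 * C * 13 * (t + 1) * (r + 1) := by
        apply Finset.prod_le_prod'
        intro j hj
        have hj' : j ≤ t := by
          have := Finset.mem_range.1 hj
          omega
        have h1 : 4 * r + 4 + j * (r + 8) + 1 ≤ 13 * (t + 1) * (r + 1) := by
          have h2 : j * (r + 8) ≤ t * (8 * (r + 1)) := Nat.mul_le_mul hj' (by omega)
          nlinarith
        calc 4 * C * (4 * r + 4 + j * (r + 8) + 1) ≤ 4 * C * (13 * (t + 1) * (r + 1)) :=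
              Nat.mul_le_mul_left _ h1
          _ = _ := by ring
    _ = (4 * C * 13 * (t + 1) * (r + 1)) ^ (t + 1) := by
        rw [Finset.prod_const, Finset.card_range]

end Pool.Agent.NHV
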